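import Mathlib

set_option autoImplicit false

namespace Pool.Agent.Helper15_Fspda

/-- The content of a pushdown rule `Z q x → γ p`: with the symbol `Z` on the top of the pushdown
and in state `q`, read the string `x` from the input, replace `Z` by the string `γ` and go to state
`p`. -/
structure Rule (Q Γ α : Type) where
  Z : Γ
  q : Q
  x : List α
  γ : List Γ
  p : Q

/-- A configuration: a pushdown string (its top is at the right end), a state and the unread
input. -/
structure Config (Q Γ α : Type) where
  stack : List Γ
  state : Q
  input : List α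

/-- A self-regulating pushdown automaton `(Q, α, Γ, δ, q₀, qt, Z₀, F, R)` over the input alphabet
`α`.  The finite set of rules is given by their labels: `Ψ` is the alphabet of labels and `rule r`
is the rule with label `r`, different labels naming different rules; `R` is a (finite) relation
between labels and `qt` is the turn state. -/
structure SPDA (α : Type) where
  Q : Type
  Γ : Type
  Ψ : Type
  finite_Q : Finite Q
  finite_Γ : Finite Γ
  finite_Ψ : Finite Ψ
  rule : Ψ → Rule Q Γ α
  rule_injective : Function.Injective rule
  q₀ : Q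
  qt : Q
  Z₀ : Γ
  F : Set Q
  R : Ψ → Ψ → Prop

namespace SPDA

variable {α : Type} (M : SPDA α)

/-- The move `η Z q x v ⊢ η γ p v` by the rule labelled `r : Z q x → γ p`. -/
def Step (r : M.Ψ) (c c' : Config M.Q M.Γ α) : Prop :=
  ∃ (η : List M.Γ) (v : List α),
    c = ⟨η ++ [(M.rule r).Z], (M.rule r).q, (M.rule r).x ++ v⟩ ∧
    c' = ⟨η ++ (M.rule r).γ, (M.rule r).p, v⟩

/-- `Steps c μ c'`: the computation from `c` by the sequence `μ` of labels ends in `c'`. -/
inductive Steps : Config M.Q M.Γ α → List M.Ψ → Config M.Q M.Γ α → Prop
  | refl (c : Config M.Q M.Γ α) : Steps c [] c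
  | cons {r : M.Ψ} {μ : List M.Ψ} {c c' c'' : Config M.Q M.Γ α} :
      M.Step r c c' → Steps c' μ c'' → Steps c (r :: μ) c''

/-- The shape of an `n`-turn first-move self-regulated sequence `μ` of labels: for some `k ≥ 1`,
`μ` has length `(n+1)k` (so it splits into blocks `μ₀, …, μₙ` of length `k`, the block `μⱼ` starting
at position `jk`, positions being counted from `0`); the last label of `μ₀` (position `k-1`) is the
earliest label in `μ` whose rule has the shape `Z q x → γ qt`; and the first labels of `μⱼ` and
`μⱼ₊₁` are related by `R` for all `0 ≤ j < n`. -/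
def TurnShape (n : ℕ) (μ : List M.Ψ) : Prop :=
  ∃ k : ℕ, 1 ≤ k ∧ μ.length = (n + 1) * k ∧
    (∃ r, μ[k - 1]? = some r ∧ (M.rule r).p = M.qt) ∧
    (∀ i, i < k - 1 → ∀ r, μ[i]? = some r → (M.rule r).p ≠ M.qt) ∧
    (∀ j, j < n → ∃ r s, μ[j * k]? = some r ∧ μ[(j + 1) * k]? = some s ∧ M.R r s)

/-- The language of `M` as an `n`-turn first-move self-regulating pushdown automaton: the words
`w` with an accepting computation (input read, pushdown emptied, final state entered) whose
sequence of labels has the `n`-turn first-move shape. -/
def language (n : ℕ) : Set (List α) :=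
  {w | ∃ f ∈ M.F, ∃ μ, M.Steps ⟨[M.Z₀], M.q₀, w⟩ μ ⟨[], f, []⟩ ∧ M.TurnShape n μ}

end SPDA

/-- The family `FSPDAₙ` of the languages, over the finite alphabets `Fin m`, accepted by `n`-turn
first-move self-regulating pushdown automata.  An element is a pair `⟨m, L⟩` of the size `m` of an
alphabet and a language `L` over the alphabet `Fin m`. -/
def FSPDA (n : ℕ) : Set (Σ m : ℕ, Set (List (Fin m))) :=
  {L | ∃ M : SPDA (Fin L.1), L.2 = M.language n}

end Pool.Agent.Helper15_Fspda
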