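import Pool.Agent.Helper15_Fspda.Bound
import Pool.Agent.Helper15_Fspda.Defs

set_option autoImplicit false

namespace Pool.Agent.Helper15_Fspda

open PDS

namespace SPDA

variable {α : Type} (M : SPDA α) (n : ℕ)

/-- Annotated states: the state, the current block and the first label of the block. -/
abbrev AS : Type := Option (M.Q × Fin (n + 1) × M.Ψ)

/-- Allowed transitions between annotated states. -/
def Tr (s : M.AS n) (r : M.Ψ) (s' : M.AS n) : Prop :=
  match s with
  | none => (M.rule r).q = M.q₀ ∧ s' = some ((M.rule r).p, 0, r)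
  | some (q, j, ρ) => (M.rule r).q = q ∧
      (((j = 0 → q ≠ M.qt) ∧ s' = some ((M.rule r).p, j, ρ)) ∨
       (∃ j' : Fin (n + 1), (j' : ℕ) = j + 1 ∧ (j = 0 → q = M.qt) ∧ M.R ρ r ∧
          s' = some ((M.rule r).p, j', r)))

/-- The annotated pushdown system. -/
def annot : PDS where
  S := M.AS n
  Γ := M.Γ
  E := {e : M.AS n × M.Ψ × M.AS n // M.Tr n e.1 e.2.1 e.2.2}
  src e := e.1.1
  top e := (M.rule e.1.2.1).Z
  push e := (M.rule e.1.2.1).γ.reverse
  tgt e := e.1.2.2

/-- label of a transition -/
def lab (e : (M.annot n).E) : M.Ψ := e.1.2.1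

/-- output of a transition -/
def out (e : (M.annot n).E) : List α := (M.rule (M.lab n e)).x

/-- block of an annotated state -/
def sblk (s : M.AS n) : Fin (n + 1) :=
  match s with
  | none => 0
  | some (_, j, _) => j

/-- block of a transition -/
def blk (e : (M.annot n).E) : Fin (n + 1) := M.sblk n e.1.2.2

/-- underlying state -/
def st (s : M.AS n) : M.Q :=
  match s with
  | none => M.q₀
  | some (q, _, _) => q

lemma Tr.q_eq {s : M.AS n} {r : M.Ψ} {s' : M.AS n} (h : M.Tr n s r s') :
    (M.rule r).q = M.st n s := by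
  rcases s with _ | ⟨q, j, ρ⟩
  · exact h.1
  · exact h.1

lemma Tr.p_eq {s : M.AS n} {r : M.Ψ} {s' : M.AS n} (h : M.Tr n s r s') :
    (M.rule r).p = M.st n s' := by
  rcases s with _ | ⟨q, j, ρ⟩
  · rw [h.2]; rfl
  · rcases h.2 with h | ⟨j', _, _, _, h⟩
    · rw [h.2]; rfl
    · rw [h]; rfl

lemma steps_of_run {s : (M.annot n).S} {γ : List (M.annot n).Γ} {w : List (M.annot n).E}
    {s' : (M.annot n).S} (h : (M.annot n).Run s γ w s') : ∀ v : List α,
    M.Steps ⟨γ.reverse, M.st n s, w.flatMap (M.out n) ++ v⟩ (w.map (M.lab n))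
      ⟨[], M.st n s', v⟩ := by
  induction h with
  | nil s => intro v; exact Steps.refl _
  | cons e hr ih =>
    rename_i α0 w0 s0
    intro v
    have htr := e.2
    let α1 : List M.Γ := α0
    let push1 : List M.Γ := (M.annot n).push e
    refine Steps.cons (r := M.lab n e) (c' := ⟨(push1 ++ α1).reverse,
      M.st n ((M.annot n).tgt e), w0.flatMap (M.out n) ++ v⟩) ?_ (ih v)
    refine ⟨α1.reverse, w0.flatMap (M.out n) ++ v, ?_, ?_⟩
    · have h1 : M.st n ((M.annot n).src e) = (M.rule (M.lab n e)).q := (Tr.q_eq M n htr).symm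
      have h2 : ((M.rule (M.lab n e)).Z :: α1).reverse = α1.reverse ++ [(M.rule (M.lab n e)).Z] :=
        List.reverse_cons
      have h3 : List.flatMap (M.out n) (e :: w0) ++ v
          = (M.rule (M.lab n e)).x ++ (w0.flatMap (M.out n) ++ v) := by
        simp [out]
      rw [h1, h3, ← h2]
      rfl
    · have h1 : M.st n ((M.annot n).tgt e) = (M.rule (M.lab n e)).p := (Tr.p_eq M n htr).symm
      have h2 : (push1 ++ α1).reverse = α1.reverse ++ (M.rule (M.lab n e)).γ := by
        rw [List.reverse_append]
        show α1.reverse ++ (M.rule (M.lab n e)).γ.reverse.reverse = _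
        rw [List.reverse_reverse]
      rw [h1, h2]

/-- paths of transitions -/
def IsPath : M.AS n → List (M.annot n).E → M.AS n → Prop
  | s, [], s' => s = s'
  | s, e :: w, s' => (M.annot n).src e = s ∧ IsPath ((M.annot n).tgt e) w s'

lemma isPath_of_run {s : (M.annot n).S} {γ : List (M.annot n).Γ} {w : List (M.annot n).E}
    {s' : (M.annot n).S} (h : (M.annot n).Run s γ w s') : M.IsPath n s w s' := by
  induction h with
  | nil s => rfl
  | cons e hr ih => exact ⟨rfl, ih⟩

variable {n}

lemma IsPath.adj {w : List (M.annot n).E} : ∀ {s s' : M.AS n}, M.IsPath n s w s' →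
    ∀ (i : ℕ) (e e' : (M.annot n).E), w[i]? = some e → w[i + 1]? = some e' →
      (M.annot n).src e' = (M.annot n).tgt e := by
  induction w with
  | nil => intro s s' _ i e e' h; simp at h
  | cons a w ih =>
    intro s s' h i e e' h1 h2
    cases i with
    | zero =>
      simp only [List.getElem?_cons_zero, Option.some.injEq] at h1
      cases w with
      | nil => simp at h2
      | cons b w =>
        simp only [zero_add, List.getElem?_cons_succ, List.getElem?_cons_zero,
          Option.some.injEq] at h2
        have := h.2.1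
        rw [← h1, ← h2, this]
    | succ i =>
      simp only [List.getElem?_cons_succ] at h1 h2
      exact ih h.2 i e e' h1 h2

lemma IsPath.first {s s' : M.AS n} {w : List (M.annot n).E} (h : M.IsPath n s w s')
    {e : (M.annot n).E} (he : w[0]? = some e) : (M.annot n).src e = s := by
  cases w with
  | nil => simp at he
  | cons a w =>
    simp only [List.getElem?_cons_zero, Option.some.injEq] at he
    rw [← he]; exact h.1

lemma IsPath.last {w : List (M.annot n).E} : ∀ {s s' : M.AS n}, M.IsPath n s w s' →
    ∀ (L : ℕ) (e : (M.annot n).E), w.length = L + 1 → w[L]? = some e →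
      (M.annot n).tgt e = s' := by
  induction w with
  | nil => intro s s' _ L e h; simp at h
  | cons a w ih =>
    intro s s' h L e h1 h2
    cases L with
    | zero =>
      simp only [List.getElem?_cons_zero, Option.some.injEq] at h2
      have hw : w = [] := by simpa using h1
      subst hw
      rw [← h2]; exact h.2
    | succ L =>
      simp only [List.getElem?_cons_succ] at h2
      exact ih h.2 L e (by simpa using h1) h2

lemma IsPath.blocks {w : List (M.annot n).E} : ∀ {s s' : M.AS n}, M.IsPath n s w s' →
    (∀ e ∈ w, (M.sblk n s : ℕ) ≤ (M.blk n e : ℕ)) ∧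
    (w.map (fun e => (M.blk n e : ℕ))).Pairwise (· ≤ ·) := by
  induction w with
  | nil => intro s s' _; simp
  | cons a w ih =>
    intro s s' h
    obtain ⟨i1, i2⟩ := ih h.2
    have hsrc := h.1
    have hle : (M.sblk n s : ℕ) ≤ (M.blk n a : ℕ) := by
      have htr := a.2
      have hs : a.1.1 = s := hsrc
      rw [hs] at htr
      rcases s with _ | ⟨q, j, ρ⟩
      · simp [sblk]
      · rcases htr.2 with h | ⟨j', hj', _, _, h⟩
        · simp only [blk, h.2, sblk]; exact le_refl _
        · simp only [blk, h, sblk]; omega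
    refine ⟨?_, ?_⟩
    · intro e he
      rcases List.mem_cons.mp he with rfl | he
      · exact hle
      · exact hle.trans (i1 e he)
    · rw [List.map_cons, List.pairwise_cons]
      refine ⟨?_, i2⟩
      intro x hx
      rw [List.mem_map] at hx
      obtain ⟨e, he, rfl⟩ := hx
      exact i1 e he

lemma cnt_eq_count (w : List (M.annot n).E) (j : Fin (n + 1)) :
    cnt (M.blk n) j w = (w.map (fun e => (M.blk n e : ℕ))).count (j : ℕ) := by
  induction w with
  | nil => simp [cnt]
  | cons a w ih =>
    have : cnt (M.blk n) j (a :: w) = (if M.blk n a = j then 1 else 0) + cnt (M.blk n) j w := by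
      simp [cnt]
    rw [this, ih, List.map_cons, List.count_cons]
    by_cases h : M.blk n a = j
    · simp [h, add_comm]
    · have h' : (M.blk n a : ℕ) ≠ (j : ℕ) := fun h' => h (Fin.ext h')
      simp [h, h']

/-- From a balanced annotated run to the turn shape. -/
lemma turnShape_of_path {w : List (M.annot n).E} {f : M.Q} {ρ : M.Ψ}
    (hp : M.IsPath n none w (some (f, Fin.last n, ρ))) (hf : n = 0 → f = M.qt)
    {k : ℕ} (hk : 1 ≤ k) (hc : ∀ j, cnt (M.blk n) j w = k) :
    M.TurnShape n (w.map (M.lab n)) := by
  have hbl : w.map (fun e => (M.blk n e : ℕ)) = (List.range ((n + 1) * k)).map (· / k) := by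
    apply eq_map_div n k hk _ (IsPath.blocks M hp).2
    · intro x hx
      rw [List.mem_map] at hx
      obtain ⟨e, _, rfl⟩ := hx
      have := (M.blk n e).2
      omega
    · intro j hj
      have := cnt_eq_count M w ⟨j, by omega⟩
      rw [hc] at this
      exact this.symm
  have hlen : w.length = (n + 1) * k := by
    have := congrArg List.length hbl
    simpa using this
  have hblk : ∀ i e, w[i]? = some e → (M.blk n e : ℕ) = i / k := by
    intro i e he
    have h := congrArg (fun l => l[i]?) hbl
    simp only [List.getElem?_map, he] at h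
    have hi : i < (n + 1) * k := by
      rw [← hlen]
      exact (List.getElem?_eq_some_iff.mp he).1
    rw [List.getElem?_range hi] at h
    simpa using h
  have hget : ∀ i, i < (n + 1) * k → ∃ e, w[i]? = some e := by
    intro i hi
    rw [← hlen] at hi
    exact ⟨w[i], List.getElem?_eq_getElem hi⟩
  have h0pos : 0 < (n + 1) * k := Nat.mul_pos (by omega) (by omega)
  -- form of the targets
  have htgt : ∀ e : (M.annot n).E, ∃ ρ, e.1.2.2 = some ((M.rule (M.lab n e)).p, M.blk n e, ρ) := by
    intro e
    obtain ⟨⟨s, r, s'⟩, htr⟩ := e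
    rcases s with _ | ⟨q, j, ρ⟩
    · have : s' = some ((M.rule r).p, 0, r) := htr.2
      subst this
      exact ⟨r, rfl⟩
    · rcases htr.2 with h | ⟨j', _, _, _, h⟩
      · have : s' = some ((M.rule r).p, j, ρ) := h.2
        subst this
        exact ⟨ρ, rfl⟩
      · have : s' = some ((M.rule r).p, j', r) := h
        subst this
        exact ⟨r, rfl⟩
  choose fl hfl using htgt
  -- transitions between adjacent elements
  have hadj : ∀ i e e', w[i]? = some e → w[i + 1]? = some e' →
      ((M.blk n e = 0 → (M.rule (M.lab n e)).p ≠ M.qt) ∧ M.blk n e' = M.blk n e ∧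
        fl e' = fl e) ∨
      ((M.blk n e' : ℕ) = M.blk n e + 1 ∧ (M.blk n e = 0 → (M.rule (M.lab n e)).p = M.qt) ∧
        M.R (fl e) (M.lab n e') ∧ fl e' = M.lab n e') := by
    intro i e e' he he'
    have h := IsPath.adj M hp i e e' he he'
    have h' : e'.1.1 = e.1.2.2 := h
    have htr := e'.2
    rw [h', hfl e] at htr
    have ht' := hfl e'
    rcases htr.2 with h | ⟨j', hj', h0, hR, h⟩
    · left
      have e1 := h.2
      rw [ht'] at e1
      simp only [Option.some.injEq, Prod.mk.injEq] at e1
      exact ⟨h.1, e1.2.1, e1.2.2⟩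
    · right
      have e1 := h
      rw [ht'] at e1
      simp only [Option.some.injEq, Prod.mk.injEq] at e1
      refine ⟨by rw [e1.2.1, hj'], h0, hR, e1.2.2⟩
  -- memory of the first label
  have hmem : ∀ i e, w[i]? = some e → ∃ e', w[i / k * k]? = some e' ∧ fl e = M.lab n e' := by
    intro i
    induction i with
    | zero =>
      intro e he
      refine ⟨e, by simpa using he, ?_⟩
      have hs := IsPath.first M hp he
      have hs' : e.1.1 = none := hs
      have htr := e.2
      rw [hs'] at htr
      have e1 : e.1.2.2 = some ((M.rule e.1.2.1).p, 0, e.1.2.1) := htr.2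
      rw [hfl e] at e1
      simp only [Option.some.injEq, Prod.mk.injEq] at e1
      exact e1.2.2
    | succ i ih =>
      intro e' he'
      have hi : i + 1 < (n + 1) * k := by
        rw [← hlen]; exact (List.getElem?_eq_some_iff.mp he').1
      obtain ⟨e, he⟩ := hget i (by omega)
      have b1 := hblk i e he
      have b2 := hblk (i + 1) e' he'
      rcases hadj i e e' he he' with ⟨_, hb, hfe⟩ | ⟨hb, _, _, hfe⟩
      · have : (i + 1) / k = i / k := by rw [← b1, ← b2, hb]
        rw [this, hfe]
        exact ih e he
      · have h2 : (i + 1) / k = i / k + 1 := by rw [← b1, ← b2, hb]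
        have h3 : (i + 1) / k * k = i + 1 := by
          rw [Nat.succ_div] at h2
          by_cases hd : k ∣ i + 1
          · exact Nat.div_mul_cancel hd
          · rw [if_neg hd] at h2; omega
        rw [h3]
        exact ⟨e', he', hfe⟩
  refine ⟨k, hk, by simpa using hlen, ?_, ?_, ?_⟩
  · -- the last label of the block 0 enters the turn state
    have hk1 : k - 1 < (n + 1) * k := by
      have : k ≤ (n + 1) * k := Nat.le_mul_of_pos_left k (by omega)
      omega
    obtain ⟨e, he⟩ := hget (k - 1) hk1
    refine ⟨M.lab n e, by simp [he], ?_⟩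
    have b1 := hblk (k - 1) e he
    rw [Nat.div_eq_of_lt (by omega)] at b1
    rcases Nat.eq_zero_or_pos n with hn | hn
    · have hl : w.length = (k - 1) + 1 := by rw [hlen, hn]; omega
      have := IsPath.last M hp (k - 1) e hl he
      have h2 : e.1.2.2 = some (f, Fin.last n, ρ) := this
      rw [hfl e] at h2
      simp only [Option.some.injEq, Prod.mk.injEq] at h2
      rw [h2.1]; exact hf hn
    · have hk2 : k < (n + 1) * k := by nlinarith
      obtain ⟨e', he'⟩ := hget k hk2
      have b2 := hblk k e' he'
      rw [Nat.div_self (by omega)] at b2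
      have hkk : k - 1 + 1 = k := by omega
      rcases hadj (k - 1) e e' he (by rw [hkk]; exact he') with ⟨_, hb, _⟩ | ⟨_, h, _, _⟩
      · rw [hb, b1] at b2; omega
      · exact h (Fin.ext b1)
  · intro i hi r hr
    have hi1 : i + 1 < (n + 1) * k := by
      have : k ≤ (n + 1) * k := Nat.le_mul_of_pos_left k (by omega)
      omega
    obtain ⟨e, he⟩ := hget i (by omega)
    obtain ⟨e', he'⟩ := hget (i + 1) hi1
    have b1 := hblk i e he
    have b2 := hblk (i + 1) e' he'
    rw [Nat.div_eq_of_lt (by omega)] at b1 b2
    have hr' : r = M.lab n e := by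
      simp [he] at hr
      exact hr.symm
    rw [hr']
    rcases hadj i e e' he he' with ⟨h, _, _⟩ | ⟨hb, _, _, _⟩
    · exact h (Fin.ext b1)
    · omega
  · intro j hj
    have hjk : (j + 1) * k < (n + 1) * k := Nat.mul_lt_mul_of_pos_right (by omega) (by omega)
    have hjk' : j * k + k = (j + 1) * k := by ring
    obtain ⟨e', he'⟩ := hget ((j + 1) * k) hjk
    obtain ⟨e, he⟩ := hget ((j + 1) * k - 1) (by omega)
    have b1 := hblk _ e he
    have b2 := hblk _ e' he'
    rw [Nat.mul_div_cancel _ (by omega)] at b2
    have hdiv : ((j + 1) * k - 1) / k = j := by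
      have : (j + 1) * k - 1 = (k - 1) + j * k := by omega
      rw [this, Nat.add_mul_div_right _ _ (by omega), Nat.div_eq_of_lt (by omega), zero_add]
    rw [hdiv] at b1
    have hkk : (j + 1) * k - 1 + 1 = (j + 1) * k := by omega
    obtain ⟨e0, he0, hfe0⟩ := hmem _ e he
    rw [hdiv] at he0
    rcases hadj _ e e' he (by rw [hkk]; exact he') with ⟨_, hb, _⟩ | ⟨_, _, hR, _⟩
    · rw [hb, b1] at b2; omega
    · refine ⟨M.lab n e0, M.lab n e', by simp [he0], by simp [he'], ?_⟩
      rw [← hfe0]; exact hR

end SPDA

end Pool.Agent.Helper15_Fspda
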