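import Mathlib

set_option autoImplicit false

namespace Pool.Agent.Helper15_Fspda

/-- clearing denominators -/
lemma exists_int_multiple {ι : Type} [Fintype ι] (w : ι → ℚ) :
    ∃ (D : ℕ) (z : ι → ℤ), 0 < D ∧ ∀ k, (z k : ℚ) = D * w k := by
  classical
  refine ⟨∏ k, (w k).den, fun k => (∏ j ∈ Finset.univ.erase k, ((w j).den : ℤ)) * (w k).num, ?_, ?_⟩
  · exact Finset.prod_pos (fun k _ => (w k).den_pos)
  · intro k
    have h1 : (∏ j, (w j).den) = (∏ j ∈ Finset.univ.erase k, (w j).den) * (w k).den := by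
      rw [Finset.prod_erase_mul _ _ (Finset.mem_univ k)]
    rw [h1]
    push_cast
    have h2 : ((w k).den : ℚ) * w k = (w k).num := Rat.den_mul_eq_num (w k)
    rw [mul_assoc, h2]

/-- The linear algebra lemma. -/
lemma cover_bound {ι : Type} [Fintype ι] (n s : ℕ) (α : ι → Fin s → ℕ) (ℓ : ι → Fin (n + 1) → ℕ)
    (hsupp : ∀ k, ∃ i1 i2, ∀ i, α k i ≠ 0 → i = i1 ∨ i = i2)
    (h1 : ∀ j j', ∑ k, ℓ k j = ∑ k, ℓ k j')
    (hL : ∀ t : ι → ℕ, (∀ j j', ∑ k, t k * ℓ k j = ∑ k, t k * ℓ k j') →
      ∀ i i', ∑ k, t k * α k i = ∑ k, t k * α k i')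
    (hpos : ∀ i, 0 < ∑ k, α k i) : s ≤ 2 * (n + 1) := by
  classical
  rcases Nat.eq_zero_or_pos s with hs | hs
  · omega
  set i0 : Fin s := ⟨0, hs⟩ with hi0
  -- kernel property over the integers
  have hZ : ∀ z : ι → ℤ, (∀ j j', ∑ k, z k * (ℓ k j : ℤ) = ∑ k, z k * (ℓ k j' : ℤ)) →
      ∀ i i', ∑ k, z k * (α k i : ℤ) = ∑ k, z k * (α k i' : ℤ) := by
    intro z hz i i'
    obtain ⟨N, hN⟩ : ∃ N : ℕ, ∀ k, 0 ≤ (N : ℤ) + z k := by
      refine ⟨∑ k, (z k).natAbs, fun k => ?_⟩
      have h2 : (z k).natAbs ≤ ∑ k, (z k).natAbs :=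
        Finset.single_le_sum (f := fun k => (z k).natAbs) (fun _ _ => Nat.zero_le _)
          (Finset.mem_univ k)
      have h3 : -(z k) ≤ ((z k).natAbs : ℤ) := by
        have := Int.natAbs_neg (z k)
        rw [← this]
        exact Int.le_natAbs
      have h4 : ((z k).natAbs : ℤ) ≤ ((∑ k, (z k).natAbs : ℕ) : ℤ) := by exact_mod_cast h2
      linarith
    set t : ι → ℕ := fun k => ((N : ℤ) + z k).toNat with ht
    have htz : ∀ k, (t k : ℤ) = N + z k := fun k => Int.toNat_of_nonneg (hN k)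
    have hsum : ∀ g : ι → ℕ, ((∑ k, t k * g k : ℕ) : ℤ)
        = N * (∑ k, g k : ℕ) + ∑ k, z k * (g k : ℤ) := by
      intro g
      push_cast
      rw [Finset.mul_sum, ← Finset.sum_add_distrib]
      apply Finset.sum_congr rfl
      intro k _
      rw [htz k]; ring
    have hbal : ∀ j j', ∑ k, t k * ℓ k j = ∑ k, t k * ℓ k j' := by
      intro j j'
      have e1 := hsum (fun k => ℓ k j)
      have e2 := hsum (fun k => ℓ k j')
      have : ((∑ k, t k * ℓ k j : ℕ) : ℤ) = ((∑ k, t k * ℓ k j' : ℕ) : ℤ) := by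
        rw [e1, e2, hz j j', h1 j j']
      exact_mod_cast this
    have hbal1 : ∀ j j', ∑ k, (fun _ => 1 : ι → ℕ) k * ℓ k j = ∑ k, (fun _ => 1 : ι → ℕ) k * ℓ k j' := by
      intro j j'
      simpa using h1 j j'
    have c1 := hL t hbal i i'
    have c2 := hL (fun _ => 1) hbal1 i i'
    simp only [one_mul] at c2
    have e1 := hsum (fun k => α k i)
    have e2 := hsum (fun k => α k i')
    have c1' : ((∑ k, t k * α k i : ℕ) : ℤ) = ((∑ k, t k * α k i' : ℕ) : ℤ) := by rw [c1]
    rw [e1, e2, c2] at c1'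
    linarith
  -- over the rationals
  have hQ : ∀ w : ι → ℚ, (∀ j, ∑ k, w k * (ℓ k j : ℚ) = ∑ k, w k * (ℓ k 0 : ℚ)) →
      ∀ i i', ∑ k, w k * (α k i : ℚ) = ∑ k, w k * (α k i' : ℚ) := by
    intro w hw i i'
    obtain ⟨D, z, hD, hz⟩ := exists_int_multiple w
    have hD' : (D : ℚ) ≠ 0 := by exact_mod_cast hD.ne'
    have hsum : ∀ g : ι → ℕ, ((∑ k, z k * (g k : ℤ) : ℤ) : ℚ) = D * ∑ k, w k * (g k : ℚ) := by
      intro g
      push_cast
      rw [Finset.mul_sum]
      apply Finset.sum_congr rfl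
      intro k _
      rw [hz k]; ring
    have hbal : ∀ j j', ∑ k, z k * (ℓ k j : ℤ) = ∑ k, z k * (ℓ k j' : ℤ) := by
      intro j j'
      have : ((∑ k, z k * (ℓ k j : ℤ) : ℤ) : ℚ) = ((∑ k, z k * (ℓ k j' : ℤ) : ℤ) : ℚ) := by
        rw [hsum (fun k => ℓ k j), hsum (fun k => ℓ k j'), hw j, hw j']
      exact_mod_cast this
    have c := hZ z hbal i i'
    have c' : ((∑ k, z k * (α k i : ℤ) : ℤ) : ℚ) = ((∑ k, z k * (α k i' : ℤ) : ℤ) : ℚ) := by
      rw [c]
    rw [hsum (fun k => α k i), hsum (fun k => α k i')] at c'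
    exact mul_left_cancel₀ hD' c'
  -- the two linear maps
  set a : ι → (Fin s → ℚ) := fun k i => (α k i : ℚ) with ha
  set c : ι → (Fin (n + 1) → ℚ) := fun k j => if j = 0 then (α k i0 : ℚ) else (ℓ k j : ℚ) - ℓ k 0
    with hc
  set A := Fintype.linearCombination ℚ a with hA
  set Φ := Fintype.linearCombination ℚ c with hΦ
  have hker : LinearMap.ker Φ ≤ LinearMap.ker A := by
    intro w hw
    rw [LinearMap.mem_ker] at hw ⊢
    have hw' : ∀ j, ∑ k, w k * c k j = 0 := by
      intro j
      have := congrFun hw j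
      simpa [hΦ, Fintype.linearCombination_apply, Finset.sum_apply] using this
    have hbal : ∀ j, ∑ k, w k * (ℓ k j : ℚ) = ∑ k, w k * (ℓ k 0 : ℚ) := by
      intro j
      by_cases hj : j = 0
      · rw [hj]
      · have := hw' j
        simp only [hc, hj, if_false, mul_sub, Finset.sum_sub_distrib] at this
        linarith
    have h0 : ∑ k, w k * (α k i0 : ℚ) = 0 := by
      have := hw' 0
      simpa [hc] using this
    funext i
    have := hQ w hbal i i0
    rw [h0] at this
    simpa [hA, Fintype.linearCombination_apply, Finset.sum_apply, ha] using this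
  have hrA := LinearMap.finrank_range_add_finrank_ker A
  have hrΦ := LinearMap.finrank_range_add_finrank_ker Φ
  have hk := Submodule.finrank_mono hker
  have hrange : Module.finrank ℚ (LinearMap.range Φ) ≤ n + 1 := by
    have := Submodule.finrank_le (LinearMap.range Φ)
    simpa using this
  have hAle : Module.finrank ℚ (LinearMap.range A) ≤ n + 1 := by omega
  rw [hA, Fintype.range_linearCombination] at hAle
  -- extract a basis
  obtain ⟨b, hb1, hb2, hb3⟩ := exists_linearIndependent ℚ (Set.range a)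
  have hbfin : Finite b := (Set.finite_range a).subset hb1
  have : Fintype b := Fintype.ofFinite b
  have hcard : b.toFinset.card ≤ n + 1 := by
    have h := finrank_span_set_eq_card (R := ℚ) (s := b) hb3
    rw [hb2] at h
    omega
  -- every coordinate is covered
  have hcov : ∀ i : Fin s, ∃ v ∈ b, v i ≠ 0 := by
    intro i
    by_contra hcon
    push Not at hcon
    have hspan : ∀ v ∈ Submodule.span ℚ b, v i = 0 := by
      intro v hv
      induction hv using Submodule.span_induction with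
      | mem x hx => exact hcon x hx
      | zero => rfl
      | add x y _ _ hx hy => simp [hx, hy]
      | smul r x _ hx => simp [hx]
    have hall : ∀ k, a k i = 0 := by
      intro k
      apply hspan
      rw [hb2]
      exact Submodule.subset_span ⟨k, rfl⟩
    have : ∑ k, α k i = 0 := by
      apply Finset.sum_eq_zero
      intro k _
      have := hall k
      simpa [ha] using this
    exact absurd this (hpos i).ne'
  have hsub : (Finset.univ : Finset (Fin s)) ⊆
      b.toFinset.biUnion (fun v => Finset.univ.filter (fun i => v i ≠ 0)) := by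
    intro i _
    obtain ⟨v, hv, hvi⟩ := hcov i
    simp only [Finset.mem_biUnion, Set.mem_toFinset, Finset.mem_filter, Finset.mem_univ, true_and]
    exact ⟨v, hv, hvi⟩
  have hle : ∀ v ∈ b.toFinset, (Finset.univ.filter (fun i => v i ≠ 0)).card ≤ 2 := by
    intro v hv
    rw [Set.mem_toFinset] at hv
    obtain ⟨k, rfl⟩ := hb1 hv
    obtain ⟨i1, i2, h⟩ := hsupp k
    have : (Finset.univ.filter (fun i => a k i ≠ 0)) ⊆ {i1, i2} := by
      intro i hi
      simp only [Finset.mem_filter, Finset.mem_univ, true_and, ha, ne_eq, Nat.cast_eq_zero] at hi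
      rcases h i hi with h | h
      · simp [h]
      · simp [h]
    exact (Finset.card_le_card this).trans Finset.card_le_two
  calc s = (Finset.univ : Finset (Fin s)).card := by simp
    _ ≤ _ := Finset.card_le_card hsub
    _ ≤ ∑ v ∈ b.toFinset, (Finset.univ.filter (fun i => v i ≠ 0)).card := Finset.card_biUnion_le
    _ ≤ ∑ _v ∈ b.toFinset, 2 := Finset.sum_le_sum hle
    _ = b.toFinset.card * 2 := by simp
    _ ≤ 2 * (n + 1) := by omega

end Pool.Agent.Helper15_Fspda
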