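import Mathlib

set_option autoImplicit false

namespace Pool.Agent.Helper15_Fspda

/-- the word `0^m 1^m … (s-1)^m` -/
def word (s m : ℕ) : List (Fin s) := (List.finRange s).flatMap (fun i => List.replicate m i)

lemma count_word (s m : ℕ) (i : Fin s) : (word s m).count i = m := by
  unfold word
  rw [List.count_flatMap]
  have : (List.map (List.count i ∘ fun i => List.replicate m i) (List.finRange s))
      = (List.finRange s).map (fun j => if j = i then m else 0) := by
    apply List.map_congr_left
    intro j _
    simp only [Function.comp_apply]
    rw [List.count_replicate]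
    by_cases h : j = i <;> simp [h]
  rw [this, ← List.ofFn_eq_map, List.sum_ofFn]
  simp

lemma pairwise_flatMap_replicate {A : Type} [LinearOrder A] (m : ℕ) (l : List A)
    (h : l.Pairwise (· ≤ ·)) : (l.flatMap (fun i => List.replicate m i)).Pairwise (· ≤ ·) := by
  induction l with
  | nil => simp
  | cons a l ih =>
    rw [List.pairwise_cons] at h
    rw [List.flatMap_cons, List.pairwise_append]
    refine ⟨?_, ih h.2, ?_⟩
    · rw [List.pairwise_replicate]; right; exact le_refl a
    · intro x hx y hy
      rw [List.mem_replicate] at hx
      rw [List.mem_flatMap] at hy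
      obtain ⟨b, hb, hyb⟩ := hy
      rw [List.mem_replicate] at hyb
      rw [hx.2, hyb.2]
      exact h.1 b hb

lemma sorted_word (s m : ℕ) : (word s m).Pairwise (· ≤ ·) := by
  apply pairwise_flatMap_replicate
  exact (List.pairwise_lt_finRange s).imp (fun h => le_of_lt h)

lemma map_div_range (n k : ℕ) (hk : 1 ≤ k) :
    (List.range ((n + 1) * k)).map (· / k)
      = (List.range (n + 1)).flatMap (fun j => List.replicate k j) := by
  induction n with
  | zero =>
    simp only [Nat.zero_add, one_mul]
    have : (List.range k).map (· / k) = (List.range k).map (fun _ => 0) := by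
      apply List.map_congr_left
      intro i hi
      rw [List.mem_range] at hi
      exact Nat.div_eq_of_lt hi
    rw [this]
    simp
  | succ n ih =>
    rw [List.range_succ (n := n + 1), List.flatMap_append, ← ih]
    have e : (n + 1 + 1) * k = (n + 1) * k + k := by ring
    rw [e, List.range_add, List.map_append]
    congr 1
    rw [List.map_map]
    have : List.map ((fun x => x / k) ∘ fun x => (n + 1) * k + x) (List.range k)
        = (List.range k).map (fun _ => n + 1) := by
      apply List.map_congr_left
      intro i hi
      rw [List.mem_range] at hi
      simp only [Function.comp_apply]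
      rw [Nat.add_div_of_dvd_right (Dvd.intro_left (n + 1) rfl), Nat.mul_div_cancel _ (by omega),
        Nat.div_eq_of_lt hi, add_zero]
    rw [this]
    simp

lemma sum_ite_range (N k j : ℕ) :
    ((List.range N).map (fun i => if i = j then k else 0)).sum = if j < N then k else 0 := by
  induction N with
  | zero => simp
  | succ N ih =>
    rw [List.range_succ, List.map_append, List.sum_append, ih]
    simp only [List.map_cons, List.map_nil, List.sum_cons, List.sum_nil, add_zero]
    by_cases h1 : j < N
    · rw [if_pos h1, if_neg (by omega), if_pos (by omega)]; rfl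
    · by_cases h2 : N = j
      · rw [if_neg h1, if_pos h2, if_pos (by omega)]; simp
      · rw [if_neg h1, if_neg h2, if_neg (by omega)]

lemma count_map_div_range (n k : ℕ) (hk : 1 ≤ k) (j : ℕ) :
    ((List.range ((n + 1) * k)).map (· / k)).count j = if j < n + 1 then k else 0 := by
  rw [map_div_range n k hk, List.count_flatMap]
  have : (List.map (List.count j ∘ fun i => List.replicate k i) (List.range (n + 1)))
      = (List.range (n + 1)).map (fun i => if i = j then k else 0) := by
    apply List.map_congr_left
    intro i _
    simp only [Function.comp_apply]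
    rw [List.count_replicate]
    by_cases h : i = j <;> simp [h]
  rw [this, sum_ite_range]

/-- A sorted list of naturals with `k` occurrences of each `j ≤ n` and nothing else. -/
lemma eq_map_div (n k : ℕ) (hk : 1 ≤ k) (l : List ℕ) (hs : l.Pairwise (· ≤ ·))
    (hle : ∀ x ∈ l, x ≤ n) (hc : ∀ j, j ≤ n → l.count j = k) :
    l = (List.range ((n + 1) * k)).map (· / k) := by
  apply List.Perm.eq_of_pairwise (le := (· ≤ ·))
  · intro a b _ _ h1 h2; exact le_antisymm h1 h2
  · exact hs
  · rw [map_div_range n k hk]
    apply pairwise_flatMap_replicate
    exact (List.pairwise_lt_range (n := n + 1)).imp (fun h => le_of_lt h)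
  · rw [List.perm_iff_count]
    intro j
    rw [count_map_div_range n k hk]
    by_cases hj : j < n + 1
    · rw [if_pos hj, hc j (by omega)]
    · rw [if_neg hj, List.count_eq_zero]
      intro hmem
      have := hle j hmem
      omega

/-- A word whose square is a factor of a sorted word has only one letter. -/
lemma one_letter {A : Type} [LinearOrder A] {u w : List A} (hw : w.Pairwise (· ≤ ·))
    (h : (u ++ u) <:+: w) : ∀ a ∈ u, ∀ b ∈ u, a = b := by
  have h2 : (u ++ u).Pairwise (· ≤ ·) := hw.sublist h.sublist
  rw [List.pairwise_append] at h2
  intro a ha b hb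
  exact le_antisymm (h2.2.2 a ha b hb) (h2.2.2 b hb a ha)

end Pool.Agent.Helper15_Fspda
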