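import Pool.Agent.Helper15_Fspda.Pds
import Pool.Agent.Helper15_Fspda.LinAlg
import Pool.Agent.Helper15_Fspda.Words

set_option autoImplicit false

namespace Pool.Agent.Helper15_Fspda

open PDS

/-- number of transitions in block `j` -/
def cnt {E : Type} {n : ℕ} (blk : E → Fin (n + 1)) (j : Fin (n + 1)) (w : List E) : ℕ :=
  wt (fun e => if blk e = j then 1 else 0) w

lemma wt_count {E A : Type} [DecidableEq A] (out : E → List A) (a : A) (w : List E) :
    wt (fun e => (out e).count a) w = (w.flatMap out).count a := by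
  rw [List.count_flatMap]
  rfl

lemma infix_flatMap {E A : Type} (out : E → List A) {u w : List E} (h : u <:+: w) :
    u.flatMap out <:+: w.flatMap out := by
  obtain ⟨a, b, rfl⟩ := h
  exact ⟨a.flatMap out, b.flatMap out, by simp⟩

theorem nf_bound {n s : ℕ} (P : PDS) (hS : Finite P.S) (hE : Finite P.E) (s0 : P.S) (Z0 : P.Γ)
    (F : Set P.S) (out : P.E → List (Fin s)) (blk : P.E → Fin (n + 1))
    (hsound : ∀ w f, f ∈ F → P.Run s0 [Z0] w f → (∃ k, 1 ≤ k ∧ ∀ j, cnt blk j w = k) →
      ∃ m, w.flatMap out = word s m)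
    (hcompl : ∀ m, 1 ≤ m → ∃ w f, f ∈ F ∧ P.Run s0 [Z0] w f ∧
      (∃ k, 1 ≤ k ∧ ∀ j, cnt blk j w = k) ∧ w.flatMap out = word s m) : s ≤ 2 * (n + 1) := by
  classical
  rcases Nat.eq_zero_or_pos s with hs | hs
  · omega
  choose f sf hsf hrun hbal hout using fun m : ℕ => hcompl (m + 1) (by omega)
  -- constant final state
  obtain ⟨q, hq⟩ := Finite.exists_infinite_fiber sf
  have hinf : (sf ⁻¹' {q}).Infinite := by
    rwa [← Set.infinite_coe_iff]
  obtain ⟨g, hgmono, hg⟩ : ∃ g : ℕ → ℕ, StrictMono g ∧ ∀ k, sf (g k) = q :=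
    ⟨Nat.nth (fun n => sf n = q), Nat.nth_strictMono hinf, fun k => Nat.nth_mem_of_infinite hinf k⟩
  obtain ⟨a, b, hab, ι, _, u, v, W, hW0, hW1, hWrun, hWwt, hWinf⟩ :=
    pump hS hE s0 Z0 q (fun k => f (g k)) (fun k => by rw [← hg k]; exact hrun (g k))
  have hqF : q ∈ F := by rw [← hg a]; exact hsf (g a)
  obtain ⟨ka, hka1, hka⟩ := hbal (g a)
  obtain ⟨kb, hkb1, hkb⟩ := hbal (g b)
  have hcntW : ∀ t j, cnt blk j (W t) = ka + ∑ k, t k * (cnt blk j (u k) + cnt blk j (v k)) := by
    intro t j
    have := hWwt t (fun e => if blk e = j then 1 else 0)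
    unfold cnt
    rw [this]
    congr 1
    exact hka j
  have hlcW : ∀ t i, ((W t).flatMap out).count i
      = (g a + 1) + ∑ k, t k * (((u k).flatMap out).count i + ((v k).flatMap out).count i) := by
    intro t i
    have := hWwt t (fun e => (out e).count i)
    rw [wt_count, wt_count] at this
    rw [this, hout, count_word]
    simp only [wt_count]
  have h1 : ∀ j j', ∑ k, (cnt blk j (u k) + cnt blk j (v k))
      = ∑ k, (cnt blk j' (u k) + cnt blk j' (v k)) := by
    intro j j'
    have e1 := hcntW (fun _ => 1) j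
    have e2 := hcntW (fun _ => 1) j'
    simp only [hW1, one_mul] at e1 e2
    rw [hkb] at e1 e2
    omega
  have hword : ∀ t : ι → ℕ, (∀ j j', ∑ k, t k * (cnt blk j (u k) + cnt blk j (v k))
      = ∑ k, t k * (cnt blk j' (u k) + cnt blk j' (v k))) →
      ∃ m, (W t).flatMap out = word s m := by
    intro t ht
    apply hsound (W t) q hqF (hWrun t)
    refine ⟨ka + ∑ k, t k * (cnt blk 0 (u k) + cnt blk 0 (v k)), by omega, fun j => ?_⟩
    rw [hcntW, ht j 0]
  refine cover_bound n s (fun k i => ((u k).flatMap out).count i + ((v k).flatMap out).count i)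
    (fun k j => cnt blk j (u k) + cnt blk j (v k)) ?_ h1 ?_ ?_
  · -- supports
    intro k
    obtain ⟨m, hm⟩ := hword (fun _ => 2) (by
      intro j j'
      have := h1 j j'
      rw [← Finset.mul_sum, ← Finset.mul_sum, this])
    obtain ⟨i1, i2⟩ := hWinf (fun _ => 2) k (le_refl 2)
    have j1 := infix_flatMap out i1
    have j2 := infix_flatMap out i2
    rw [hm, List.flatMap_append] at j1 j2
    have o1 := one_letter (sorted_word s m) j1
    have o2 := one_letter (sorted_word s m) j2
    set z : Fin s := ⟨0, hs⟩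
    have key : ∀ x : List (Fin s), (∀ a ∈ x, ∀ b ∈ x, a = b) →
        ∃ i1, ∀ i, x.count i ≠ 0 → i = i1 := by
      intro x hx
      by_cases hne : x = []
      · refine ⟨z, fun i hi => ?_⟩
        rw [hne] at hi
        simp at hi
      · obtain ⟨c, hc⟩ := List.exists_mem_of_ne_nil x hne
        refine ⟨c, fun i hi => ?_⟩
        have : i ∈ x := by
          by_contra hcon
          exact hi (List.count_eq_zero.mpr hcon)
        exact hx i this c hc
    obtain ⟨c1, hc1⟩ := key _ o1
    obtain ⟨c2, hc2⟩ := key _ o2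
    refine ⟨c1, c2, fun i hi => ?_⟩
    by_contra hcon
    push Not at hcon
    apply hi
    have z1 : ((u k).flatMap out).count i = 0 := by
      by_contra h; exact hcon.1 (hc1 i h)
    have z2 : ((v k).flatMap out).count i = 0 := by
      by_contra h; exact hcon.2 (hc2 i h)
    simp only [z1, z2, add_zero]
  · intro t ht i i'
    obtain ⟨m, hm⟩ := hword t ht
    have e1 := hlcW t i
    have e2 := hlcW t i'
    rw [hm, count_word] at e1 e2
    show ∑ k, t k * (((u k).flatMap out).count i + ((v k).flatMap out).count i)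
      = ∑ k, t k * (((u k).flatMap out).count i' + ((v k).flatMap out).count i')
    omega
  · intro i
    have e1 := hlcW (fun _ => 1) i
    simp only [hW1, one_mul] at e1
    rw [hout, count_word] at e1
    have := hgmono hab
    show 0 < ∑ k, (((u k).flatMap out).count i + ((v k).flatMap out).count i)
    omega

end Pool.Agent.Helper15_Fspda
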