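import Pool.Agent.Helper15_Fspda.Sync

set_option autoImplicit false

namespace Pool.Agent.Helper15_Fspda

/-- states of the extended automaton -/
inductive IQ (Q : Type) (n : ℕ) : Type
  | st : IQ Q n
  | run : Q → Fin (n + 1) → IQ Q n
  | dum : IQ Q n
  | fin : IQ Q n

namespace SPDA

variable {α : Type} (M : SPDA α) (n : ℕ)

/-- labels of the extended automaton -/
inductive IL : Type
  | start : {r : M.Ψ // (M.rule r).Z = M.Z₀ ∧ (M.rule r).q = M.q₀} → IL
  | cont : M.Ψ → Fin (n + 1) → IL
  | new : M.Ψ → Fin n → IL
  | dnew1 : M.F → IL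
  | dnew2 : M.F → IL
  | dcont : IL
  | dlast : IL

/-- rules of the extended automaton -/
def irule : IL M n → Rule (IQ M.Q n) (Option M.Γ) α
  | .start r => ⟨none, .st, (M.rule r.1).x, none :: (M.rule r.1).γ.map some,
      .run (M.rule r.1).p 0⟩
  | .cont r j => ⟨some (M.rule r).Z, .run (M.rule r).q j, (M.rule r).x, (M.rule r).γ.map some,
      .run (M.rule r).p j⟩
  | .new r j => ⟨some (M.rule r).Z, .run (M.rule r).q j.castSucc, (M.rule r).x,
      (M.rule r).γ.map some, .run (M.rule r).p j.succ⟩
  | .dnew1 f => ⟨none, .run f.1 (Fin.last n), [], [none], .dum⟩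
  | .dnew2 f => ⟨none, .run f.1 (Fin.last n), [], [], .fin⟩
  | .dcont => ⟨none, .dum, [], [none], .dum⟩
  | .dlast => ⟨none, .dum, [], [], .fin⟩

/-- original label -/
def orig : IL M n → Option M.Ψ
  | .start r => some r.1
  | .cont r _ => some r
  | .new r _ => some r
  | .dnew1 _ => none
  | .dnew2 _ => none
  | .dcont => none
  | .dlast => none

/-- labels beginning a block -/
def isN : IL M n → Prop
  | .start _ => True
  | .cont _ _ => False
  | .new _ _ => True
  | .dnew1 _ => True
  | .dnew2 _ => True
  | .dcont => False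
  | .dlast => False

lemma rule_ext {Q Γ α : Type} {r s : Rule Q Γ α} (h1 : r.Z = s.Z) (h2 : r.q = s.q) (h3 : r.x = s.x)
    (h4 : r.γ = s.γ) (h5 : r.p = s.p) : r = s := by
  cases r; cases s; simp_all

lemma irule_injective : Function.Injective (M.irule n) := by
  intro a b h
  have hmap : ∀ {l l' : List M.Γ}, l.map some = l'.map some → l = l' := by
    intro l l' h
    exact List.map_injective_iff.mpr (Option.some_injective _) h
  cases a with
  | start r =>
    cases b with
    | start s =>
      simp only [irule, Rule.mk.injEq, List.cons.injEq, IQ.run.injEq, true_and, and_true] at h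
      have hr := r.2
      have hs := s.2
      have : M.rule r.1 = M.rule s.1 :=
        rule_ext (hr.1.trans hs.1.symm) (hr.2.trans hs.2.symm) h.1 (hmap h.2.1) h.2.2
      have := M.rule_injective this
      congr 1
      exact Subtype.ext this
    | cont s j => simp [irule] at h
    | new s j => simp [irule] at h
    | dnew1 f => simp [irule] at h
    | dnew2 f => simp [irule] at h
    | dcont => simp [irule] at h
    | dlast => simp [irule] at h
  | cont r i =>
    cases b with
    | start s => simp [irule] at h
    | cont s j =>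
      simp only [irule, Rule.mk.injEq, Option.some.injEq, IQ.run.injEq] at h
      have : M.rule r = M.rule s := rule_ext h.1 h.2.1.1 h.2.2.1 (hmap h.2.2.2.1) h.2.2.2.2.1
      have := M.rule_injective this
      rw [this, h.2.1.2]
    | new s j =>
      exfalso
      simp only [irule, Rule.mk.injEq, Option.some.injEq, IQ.run.injEq] at h
      have h1 := h.2.1.2
      have h2 := h.2.2.2.2.2
      rw [h1] at h2
      have := congrArg (fun x : Fin (n + 1) => (x : ℕ)) h2
      simp at this
    | dnew1 f => simp [irule] at h
    | dnew2 f => simp [irule] at h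
    | dcont => simp [irule] at h
    | dlast => simp [irule] at h
  | new r i =>
    cases b with
    | start s => simp [irule] at h
    | cont s j =>
      exfalso
      simp only [irule, Rule.mk.injEq, Option.some.injEq, IQ.run.injEq] at h
      have h1 := h.2.1.2
      have h2 := h.2.2.2.2.2
      rw [← h1] at h2
      have := congrArg (fun x : Fin (n + 1) => (x : ℕ)) h2
      simp at this
    | new s j =>
      simp only [irule, Rule.mk.injEq, Option.some.injEq, IQ.run.injEq] at h
      have : M.rule r = M.rule s := rule_ext h.1 h.2.1.1 h.2.2.1 (hmap h.2.2.2.1) h.2.2.2.2.1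
      have := M.rule_injective this
      rw [this, Fin.castSucc_injective _ h.2.1.2]
    | dnew1 f => simp [irule] at h
    | dnew2 f => simp [irule] at h
    | dcont => simp [irule] at h
    | dlast => simp [irule] at h
  | dnew1 f =>
    cases b with
    | dnew1 g =>
      simp only [irule, Rule.mk.injEq, IQ.run.injEq, and_true, true_and] at h
      congr 1
      exact Subtype.ext h
    | start s => simp [irule] at h
    | cont s j => simp [irule] at h
    | new s j => simp [irule] at h
    | dnew2 g => simp [irule] at h
    | dcont => simp [irule] at h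
    | dlast => simp [irule] at h
  | dnew2 f =>
    cases b with
    | dnew2 g =>
      simp only [irule, Rule.mk.injEq, IQ.run.injEq, and_true, true_and] at h
      congr 1
      exact Subtype.ext h
    | start s => simp [irule] at h
    | cont s j => simp [irule] at h
    | new s j => simp [irule] at h
    | dnew1 g => simp [irule] at h
    | dcont => simp [irule] at h
    | dlast => simp [irule] at h
  | dcont => cases b <;> simp [irule] at h <;> rfl
  | dlast => cases b <;> simp [irule] at h <;> rfl

lemma finite_IQ [Finite M.Q] : Finite (IQ M.Q n) := by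
  let f : IQ M.Q n → Fin 4 × Option (M.Q × Fin (n + 1)) := fun x => match x with
    | .st => (0, none)
    | .run q j => (1, some (q, j))
    | .dum => (2, none)
    | .fin => (3, none)
  apply Finite.of_injective f
  intro x y h
  cases x <;> cases y <;> simp_all [f]

lemma finite_IL [Finite M.Q] [Finite M.Ψ] : Finite (IL M n) := by
  let f : IL M n → Fin 7 × Option M.Ψ × Option (Fin (n + 1)) × Option M.Q := fun x => match x with
    | .start r => (0, some r.1, none, none)
    | .cont r j => (1, some r, some j, none)
    | .new r j => (2, some r, some j.castSucc, none)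
    | .dnew1 q => (3, none, none, some q.1)
    | .dnew2 q => (4, none, none, some q.1)
    | .dcont => (5, none, none, none)
    | .dlast => (6, none, none, none)
  apply Finite.of_injective f
  intro x y h
  cases x <;> cases y <;> simp_all [f, Subtype.ext_iff]

/-- the extended automaton -/
abbrev inc : SPDA α where
  Q := IQ M.Q n
  Γ := Option M.Γ
  Ψ := IL M n
  finite_Q := by have := M.finite_Q; exact M.finite_IQ n
  finite_Γ := by have := M.finite_Γ; exact inferInstance
  finite_Ψ := by have := M.finite_Q; have := M.finite_Ψ; exact M.finite_IL n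
  rule := M.irule n
  rule_injective := M.irule_injective n
  q₀ := .st
  qt := .run M.qt 0
  Z₀ := none
  F := {.fin}
  R := fun a b => M.isN n b ∧ ∀ r s, M.orig n a = some r → M.orig n b = some s → M.R r s

/-- block counter -/
def ibs : IQ M.Q n → ℕ
  | .st => 0
  | .run _ j => j + 1
  | .dum => n + 2
  | .fin => n + 2

/-- configurations of the extended automaton are written with this abbreviation -/
abbrev ICfg : Type := Config (IQ M.Q n) (Option M.Γ) α

/-- embedding of configurations -/
def emb (c : Config M.Q M.Γ α) (j : Fin (n + 1)) : ICfg M n :=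
  ⟨none :: c.stack.map some, .run c.state j, c.input⟩

variable {M n}

lemma top_some {S : List M.Γ} {η : List (Option M.Γ)} {Z : M.Γ}
    (h : none :: S.map some = η ++ [some Z]) :
    ∃ S', S = S' ++ [Z] ∧ η = none :: S'.map some := by
  rcases List.eq_nil_or_concat S with rfl | ⟨S', Z', rfl⟩
  · exfalso
    cases η with
    | nil => simp at h
    | cons a η => simp at h
  · have h2 : (none :: S'.map some) ++ [some Z'] = η ++ [some Z] := by
      rw [← h]; simp
    obtain ⟨h3, h4⟩ := List.append_inj' h2 rfl
    refine ⟨S', ?_, h3.symm⟩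
    simp only [List.cons.injEq, Option.some.injEq, and_true] at h4
    rw [h4, List.concat_eq_append]

lemma top_none {S : List M.Γ} {η : List (Option M.Γ)}
    (h : none :: S.map some = η ++ [none]) : S = [] := by
  rcases List.eq_nil_or_concat S with rfl | ⟨S', Z', rfl⟩
  · rfl
  · exfalso
    have h2 : (none :: S'.map some) ++ [some Z'] = η ++ [none] := by
      rw [← h]; simp
    obtain ⟨_, h4⟩ := List.append_inj' h2 rfl
    simp at h4

lemma sim {ν : List (IL M n)} : ∀ {c : Config M.Q M.Γ α} {j : Fin (n + 1)} {c' : ICfg M n},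
    (∀ a ∈ ν, M.orig n a ≠ none) → (M.inc n).Steps (M.emb n c j) ν c' →
    ∃ (ν' : List M.Ψ) (c1 : Config M.Q M.Γ α) (j' : Fin (n + 1)),
      ν'.map some = ν.map (M.orig n) ∧ M.Steps c ν' c1 ∧ c' = M.emb n c1 j' := by
  induction ν with
  | nil =>
    intro c j c' _ h
    have h := Steps.nil_inv (M := M.inc n) h
    exact ⟨[], c, j, rfl, Steps.refl _, h.symm⟩
  | cons a ν ih =>
    intro c j c' hν h
    obtain ⟨c'', hs, hr⟩ := Steps.cons_inv (M := M.inc n) h
    · obtain ⟨η, u, h1, h2⟩ := hs
      have hq : IQ.run c.state j = (M.irule n a).q := congrArg Config.state h1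
      have hS : none :: c.stack.map some = η ++ [(M.irule n a).Z] := congrArg Config.stack h1
      have hv : c.input = (M.irule n a).x ++ u := congrArg Config.input h1
      have h4 := hν a (by simp)
      have hν' : ∀ a ∈ ν, M.orig n a ≠ none := fun r hr => hν r (List.mem_cons_of_mem _ hr)
      have key : ∀ (r : M.Ψ) (j0 j1 : Fin (n + 1)), M.orig n a = some r →
          (M.irule n a).Z = some (M.rule r).Z → (M.irule n a).q = .run (M.rule r).q j0 →
          (M.irule n a).x = (M.rule r).x → (M.irule n a).γ = (M.rule r).γ.map some →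
          (M.irule n a).p = .run (M.rule r).p j1 →
          ∃ (ν' : List M.Ψ) (c1 : Config M.Q M.Γ α) (j' : Fin (n + 1)),
            ν'.map some = (a :: ν).map (M.orig n) ∧ M.Steps c ν' c1 ∧ c' = M.emb n c1 j' := by
        intro r j0 j1 e0 e1 e2 e3 e4 e5
        rw [e1] at hS
        obtain ⟨S', hS', hη⟩ := top_some hS
        have hc'' : c'' = M.emb n ⟨S' ++ (M.rule r).γ, (M.rule r).p, u⟩ j1 := by
          rw [h2, hη]
          show Config.mk (none :: S'.map some ++ (M.irule n a).γ) (M.irule n a).p u = _
          rw [e4, e5]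
          simp [emb]
        rw [hc''] at hr
        obtain ⟨ν', c1, j', f1, f2, f3⟩ := ih hν' hr
        refine ⟨r :: ν', c1, j', ?_, ?_, f3⟩
        · rw [List.map_cons, List.map_cons, f1, e0]
        · refine Steps.cons ⟨S', u, ?_, rfl⟩ f2
          obtain ⟨cs, cq, ci⟩ := c
          simp only at hS' hv hq
          rw [e2] at hq
          simp only [IQ.run.injEq] at hq
          rw [hS', hv, hq.1, e3]
      cases a with
      | start r => simp [irule] at hq
      | cont r j0 => exact key r j0 j0 rfl rfl rfl rfl rfl rfl
      | new r j0 => exact key r j0.castSucc j0.succ rfl rfl rfl rfl rfl rfl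
      | dnew1 f => exact absurd rfl h4
      | dnew2 f => exact absurd rfl h4
      | dcont => exact absurd rfl h4
      | dlast => exact absurd rfl h4

lemma input_eq {ν : List (IL M n)} : ∀ {c c' : ICfg M n},
    (∀ a ∈ ν, M.orig n a = none) → (M.inc n).Steps c ν c' → c.input = c'.input := by
  induction ν with
  | nil => intro c c' _ h; rw [Steps.nil_inv (M := M.inc n) h]
  | cons a ν ih =>
    intro c c' hν h
    obtain ⟨c'', hs, hr⟩ := Steps.cons_inv (M := M.inc n) h
    · obtain ⟨η, u, h1, h2⟩ := hs
      have h4 := hν a (by simp)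
      have := ih (fun r hr => hν r (List.mem_cons_of_mem _ hr)) hr
      rw [← this, h1, h2]
      cases a with
      | start r => simp [orig] at h4
      | cont r j0 => simp [orig] at h4
      | new r j0 => simp [orig] at h4
      | dnew1 f => rfl
      | dnew2 f => rfl
      | dcont => rfl
      | dlast => rfl

lemma inc_sync {c c' : ICfg M n} (hc : c.state = .st) {μ : List (IL M n)}
    (hst : (M.inc n).Steps c μ c') {k : ℕ} (hk : 1 ≤ k) (hlen : μ.length = (n + 1 + 1) * k)
    (hrel : ∀ j, j < n + 1 → ∃ r s, μ[j * k]? = some r ∧ μ[(j + 1) * k]? = some s ∧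
      (M.inc n).R r s) :
    ∀ (i : ℕ) (r : IL M n), μ[i]? = some r →
      (M.isN n r ↔ k ∣ i) ∧ M.ibs n (M.irule n r).p = i / k + 1 := by
  apply SPDA.sync (M.inc n) (n + 1) (M.ibs n) (M.isN n) rfl ?_ ?_ ?_ ?_ hc hst hk hlen hrel
  · intro r hr
    cases r with
    | start r => rfl
    | cont r j => exact absurd hr id
    | new r j => rfl
    | dnew1 f => rfl
    | dnew2 f => rfl
    | dcont => exact absurd hr id
    | dlast => exact absurd hr id
  · intro r hr
    cases r with
    | start r => exact absurd trivial hr
    | cont r j => exact ⟨rfl, Nat.le_add_left 1 _⟩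
    | new r j => exact absurd trivial hr
    | dnew1 f => exact absurd trivial hr
    | dnew2 f => exact absurd trivial hr
    | dcont => exact ⟨rfl, by show 1 ≤ n + 2; omega⟩
    | dlast => exact ⟨rfl, by show 1 ≤ n + 2; omega⟩
  · intro r s h
    exact h.1
  · intro q
    cases q with
    | st => exact Nat.zero_le _
    | run q j => show (j : ℕ) + 1 ≤ n + 1 + 1; omega
    | dum => exact le_refl _
    | fin => exact le_refl _

lemma inc_sound {w : List α} (hw : w ∈ (M.inc n).language (n + 1)) : w ∈ M.language n := by
  obtain ⟨f, hf, μ, hst, k, hk, hlen, hqt, hnqt, hR⟩ := hw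
  have hf' : f = .fin := hf
  subst hf'
  have hsync := inc_sync (M := M) (n := n) (c := ⟨[none], .st, w⟩) rfl hst hk hlen hR
  have hmid : (n + 1) * k ≤ μ.length := by
    rw [hlen]; exact Nat.mul_le_mul_right k (by omega)
  have hke : (n + 1 + 1) * k = (n + 1) * k + k := by ring
  have hkle : k ≤ (n + 1) * k := Nat.le_mul_of_pos_left k (by omega)
  obtain ⟨μ1, hμ1⟩ : ∃ μ1, μ1 = μ.take ((n + 1) * k) := ⟨_, rfl⟩
  obtain ⟨μ2, hμ2⟩ : ∃ μ2, μ2 = μ.drop ((n + 1) * k) := ⟨_, rfl⟩
  have hμ : μ = μ1 ++ μ2 := by rw [hμ1, hμ2, List.take_append_drop]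
  have hl1 : μ1.length = (n + 1) * k := by rw [hμ1, List.length_take]; omega
  have hl2 : μ2.length = k := by rw [hμ2, List.length_drop]; omega
  have hg1 : ∀ i, i < (n + 1) * k → μ[i]? = μ1[i]? := by
    intro i hi
    rw [hμ, List.getElem?_append_left (by omega)]
  have ho1 : ∀ a ∈ μ1, M.orig n a ≠ none := by
    intro a ha
    obtain ⟨i, hi, hia⟩ := List.getElem_of_mem ha
    have h3 : μ[i]? = some a := by
      rw [hg1 i (by omega), ← hia]; exact List.getElem?_eq_getElem hi
    have h4 := (hsync i a h3).2
    have h5 : i / k < n + 1 := Nat.div_lt_of_lt_mul (by rw [mul_comm]; omega)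
    cases a with
    | start r => simp [orig]
    | cont r j => simp [orig]
    | new r j => simp [orig]
    | dnew1 f => have : n + 2 = i / k + 1 := h4; omega
    | dnew2 f => have : n + 2 = i / k + 1 := h4; omega
    | dcont => have : n + 2 = i / k + 1 := h4; omega
    | dlast => have : n + 2 = i / k + 1 := h4; omega
  have ho2 : ∀ a ∈ μ2, M.orig n a = none := by
    intro a ha
    obtain ⟨i, hi, hia⟩ := List.getElem_of_mem ha
    have h3 : μ[(n + 1) * k + i]? = some a := by
      rw [hμ, List.getElem?_append_right (by omega), hl1, Nat.add_sub_cancel_left, ← hia]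
      exact List.getElem?_eq_getElem hi
    have h4 := (hsync _ a h3).2
    have h5 : ((n + 1) * k + i) / k = n + 1 := by
      rw [add_comm, Nat.add_mul_div_right _ _ (by omega), Nat.div_eq_of_lt (by omega), zero_add]
    rw [h5] at h4
    cases a with
    | start r => have : 0 + 1 = n + 1 + 1 := h4; omega
    | cont r j => have : (j : ℕ) + 1 = n + 1 + 1 := h4; omega
    | new r j => have : (j : ℕ) + 1 + 1 = n + 1 + 1 := h4; omega
    | dnew1 f => rfl
    | dnew2 f => rfl
    | dcont => rfl
    | dlast => rfl
  rw [hμ] at hst
  obtain ⟨cm, hs1, hs2⟩ := Steps.split hst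
  -- the first part
  obtain ⟨ν', c1, j', hν', hsν, hcm⟩ : ∃ (ν' : List M.Ψ) (c1 : Config M.Q M.Γ α)
      (j' : Fin (n + 1)), ν'.map some = μ1.map (M.orig n) ∧ M.Steps ⟨[M.Z₀], M.q₀, w⟩ ν' c1 ∧
      cm = M.emb n c1 j' := by
    cases hs1 with
    | refl => simp only [List.length_nil] at hl1; omega
    | cons hs hr =>
      rename_i a ν c''
      obtain ⟨η, u, h1, h2⟩ := hs
      have hq : IQ.st = (M.irule n a).q := congrArg Config.state h1
      have hS : [none] = η ++ [(M.irule n a).Z] := congrArg Config.stack h1
      have hv : w = (M.irule n a).x ++ u := congrArg Config.input h1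
      have hη : η = [] := by
        cases η with
        | nil => rfl
        | cons a η => simp at hS
      cases a with
      | cont r j0 => simp [irule] at hq
      | new r j0 => simp [irule] at hq
      | dnew1 f => simp [irule] at hq
      | dnew2 f => simp [irule] at hq
      | dcont => simp [irule] at hq
      | dlast => simp [irule] at hq
      | start r =>
        have hc'' : c'' = M.emb n ⟨(M.rule r.1).γ, (M.rule r.1).p, u⟩ 0 := by
          rw [h2, hη]; rfl
        rw [hc''] at hr
        obtain ⟨ν', c1, j', f1, f2, f3⟩ := sim (fun a ha => ho1 a (List.mem_cons_of_mem _ ha)) hr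
        refine ⟨r.1 :: ν', c1, j', ?_, ?_, f3⟩
        · rw [List.map_cons, List.map_cons, f1]; rfl
        · refine Steps.cons ⟨[], u, ?_, rfl⟩ f2
          rw [List.nil_append, r.2.1, r.2.2, hv]
          rfl
  -- the second part
  have hin : cm.input = [] := by
    have := input_eq ho2 hs2
    exact this
  have hlast : c1.stack = [] ∧ c1.state ∈ M.F := by
    rw [hcm] at hs2
    cases hμ2c : μ2 with
    | nil => rw [hμ2c] at hl2; simp at hl2; omega
    | cons a ν =>
      rw [hμ2c] at hs2 ho2
      obtain ⟨c'', hs, hr⟩ := Steps.cons_inv (M := M.inc n) hs2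
      obtain ⟨η, u, h1, h2⟩ := hs
      have hq : IQ.run c1.state j' = (M.irule n a).q := congrArg Config.state h1
      have hS : none :: c1.stack.map some = η ++ [(M.irule n a).Z] := congrArg Config.stack h1
      have ho := ho2 a (by simp)
      cases a with
      | start r => simp [orig] at ho
      | cont r j0 => simp [orig] at ho
      | new r j0 => simp [orig] at ho
      | dcont => simp [irule] at hq
      | dlast => simp [irule] at hq
      | dnew1 f =>
        refine ⟨top_none hS, ?_⟩
        simp only [irule, IQ.run.injEq] at hq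
        rw [hq.1]; exact f.2
      | dnew2 f =>
        refine ⟨top_none hS, ?_⟩
        simp only [irule, IQ.run.injEq] at hq
        rw [hq.1]; exact f.2
  have hgν : ∀ i, i < (n + 1) * k → ∀ a, μ[i]? = some a → ∃ r, M.orig n a = some r ∧
      ν'[i]? = some r := by
    intro i hi a ha
    rw [hg1 i hi] at ha
    have h1 := congrArg (fun l => l[i]?) hν'
    simp only [List.getElem?_map, ha, Option.map_some] at h1
    cases hν : ν'[i]? with
    | none => rw [hν] at h1; simp at h1
    | some r =>
      rw [hν] at h1
      simp only [Option.map_some, Option.some.injEq] at h1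
      exact ⟨r, h1.symm, rfl⟩
  have hν'len : ν'.length = (n + 1) * k := by
    have := congrArg List.length hν'
    simpa [hl1] using this
  have hget : ∀ i, i < (n + 1) * k → ∃ a, μ[i]? = some a := by
    intro i hi
    have : i < μ.length := by omega
    exact ⟨μ[i], List.getElem?_eq_getElem this⟩
  have hp : ∀ a r, M.orig n a = some r → ∃ j, (M.irule n a).p = .run (M.rule r).p j := by
    intro a r h
    cases a with
    | start s => simp only [orig, Option.some.injEq] at h; subst h; exact ⟨0, rfl⟩
    | cont s j => simp only [orig, Option.some.injEq] at h; subst h; exact ⟨j, rfl⟩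
    | new s j => simp only [orig, Option.some.injEq] at h; subst h; exact ⟨j.succ, rfl⟩
    | dnew1 f => simp [orig] at h
    | dnew2 f => simp [orig] at h
    | dcont => simp [orig] at h
    | dlast => simp [orig] at h
  refine ⟨c1.state, hlast.2, ν', ?_, k, hk, hν'len, ?_, ?_, ?_⟩
  · have : (⟨[], c1.state, []⟩ : Config M.Q M.Γ α) = c1 := by
      obtain ⟨cs, cq, ci⟩ := c1
      simp only at hlast
      rw [hcm] at hin
      simp only [emb] at hin
      rw [hlast.1, hin]
    rw [this]; exact hsν
  · obtain ⟨a, ha, hap⟩ := hqt
    obtain ⟨r, hr, hνr⟩ := hgν (k - 1) (by omega) a ha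
    refine ⟨r, hνr, ?_⟩
    obtain ⟨j, hj⟩ := hp a r hr
    have : (M.irule n a).p = .run M.qt 0 := hap
    rw [hj] at this
    simp only [IQ.run.injEq] at this
    exact this.1
  · intro i hi r hr hcon
    obtain ⟨a, ha⟩ := hget i (by omega)
    obtain ⟨r', hr', hνr'⟩ := hgν i (by omega) a ha
    have hrr : r = r' := by rw [hr] at hνr'; simpa using hνr'
    subst hrr
    obtain ⟨j, hj⟩ := hp a r hr'
    apply hnqt i hi a ha
    show (M.irule n a).p = .run M.qt 0
    have hb := (hsync i a ha).2
    rw [hj, Nat.div_eq_of_lt (by omega)] at hb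
    have hb' : (j : ℕ) + 1 = 0 + 1 := hb
    have hj0 : j = 0 := Fin.ext (by simpa using hb')
    rw [hj, hcon, hj0]
  · intro j hj
    obtain ⟨a, b, ha, hb, hab⟩ := hR j (by omega)
    have hlt : (j + 1) * k < (n + 1) * k := Nat.mul_lt_mul_of_pos_right (by omega) (by omega)
    have hlt' : j * k < (n + 1) * k := Nat.mul_lt_mul_of_pos_right (by omega) (by omega)
    obtain ⟨r, hr, hνr⟩ := hgν _ hlt' a ha
    obtain ⟨s, hs, hνs⟩ := hgν _ hlt b hb
    exact ⟨r, s, hνr, hνs, hab.2 r s hr hs⟩

/-- the dummy labels -/
def dums (f : M.F) : ℕ → List (IL M n)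
  | 0 => []
  | 1 => [.dnew2 f]
  | k + 2 => .dnew1 f :: (List.replicate k .dcont ++ [.dlast])

lemma dums_run (f : M.F) (k : ℕ) (hk : 1 ≤ k) :
    (M.inc n).Steps ⟨[none], .run f.1 (Fin.last n), []⟩ (dums (n := n) f k) ⟨[], .fin, []⟩ := by
  match k, hk with
  | 1, _ =>
    refine Steps.cons (M := M.inc n) (r := IL.dnew2 f) ?_ (Steps.refl _)
    exact ⟨[], [], rfl, rfl⟩
  | k + 2, _ =>
    have h1 : ∀ k, (M.inc n).Steps ⟨[none], .dum, []⟩ (List.replicate k .dcont)
        ⟨[none], .dum, []⟩ := by
      intro k
      induction k with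
      | zero => exact Steps.refl _
      | succ k ih =>
        refine Steps.cons (M := M.inc n) (r := IL.dcont) ?_ ih
        exact ⟨[], [], rfl, rfl⟩
    refine Steps.cons (M := M.inc n) (r := IL.dnew1 f) (c' := ⟨[none], .dum, []⟩) ?_
      (Steps.append (h1 k) ?_)
    · exact ⟨[], [], rfl, rfl⟩
    · refine Steps.cons (M := M.inc n) (r := IL.dlast) ?_ (Steps.refl _)
      exact ⟨[], [], rfl, rfl⟩

lemma length_dums (f : M.F) (k : ℕ) : (dums (n := n) f k).length = k := by
  match k with
  | 0 => rfl
  | 1 => rfl
  | k + 2 => simp [dums]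

lemma inc_complete {w : List α} (hw : w ∈ M.language n) : w ∈ (M.inc n).language (n + 1) := by
  obtain ⟨f, hf, μ, hst, k, hk, hlen, hqt, hnqt, hR⟩ := hw
  set L := (n + 1) * k with hL
  have hkL : k ≤ L := Nat.le_mul_of_pos_left k (by omega)
  have hLpos : 0 < L := by omega
  have h0 : 0 < μ.length := by omega
  set r0 := μ[0] with hr0
  set mf : ℕ → M.Ψ := fun i => μ.getD i r0 with hmf
  have hmfget : ∀ i, i < L → μ[i]? = some (mf i) := by
    intro i hi
    rw [hmf]
    simp only
    have : i < μ.length := by omega
    rw [List.getElem?_eq_getElem this, List.getD_eq_getElem _ _ this]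
  have hdiv : ∀ i, i < L → i / k < n + 1 := by
    intro i hi
    exact Nat.div_lt_of_lt_mul (by rw [mul_comm]; exact hi)
  have main : ∀ d i (c : Config M.Q M.Γ α) (J : Fin (n + 1)), i + d = L → 1 ≤ i →
      (J : ℕ) = (i - 1) / k → M.Steps c (μ.drop i) ⟨[], f, []⟩ →
      ∃ ν : List (IL M n), ν.length = d ∧
        (M.inc n).Steps (M.emb n c J) ν (M.emb n ⟨[], f, []⟩ (Fin.last n)) ∧
        (∀ l a, ν[l]? = some a → M.orig n a = some (mf (i + l)) ∧ (k ∣ i + l → M.isN n a) ∧
          ∃ J' : Fin (n + 1), (J' : ℕ) = (i + l) / k ∧
            (M.irule n a).p = .run (M.rule (mf (i + l))).p J') := by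
    intro d
    induction d with
    | zero =>
      intro i c J hi hi1 hJ hs
      rw [List.drop_eq_nil_of_le (by omega)] at hs
      cases hs
      refine ⟨[], rfl, ?_, ?_⟩
      · have : J = Fin.last n := by
          apply Fin.ext
          rw [hJ, Fin.val_last]
          have h1 : i - 1 = (k - 1) + n * k := by
            have : L = n * k + k := by rw [hL]; ring
            omega
          rw [h1, Nat.add_mul_div_right _ _ (by omega), Nat.div_eq_of_lt (by omega), zero_add]
        rw [this]
        exact Steps.refl _
      · intro l a h; simp at h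
    | succ d ih =>
      intro i c J hi hi1 hJ hs
      have hiL : i < L := by omega
      have hil : i < μ.length := by omega
      rw [List.drop_eq_getElem_cons hil] at hs
      have hmi : μ[i] = mf i := by
        have := hmfget i hiL
        rw [List.getElem?_eq_getElem hil] at this
        simpa using this
      rw [hmi] at hs
      cases hs with
      | cons hstep hrest =>
        rename_i c'
        obtain ⟨η, v, hc, hc'⟩ := hstep
        have hi' : i / k < n + 1 := hdiv i hiL
        -- the label
        obtain ⟨a, J', ha1, ha2, ha3, ha4, ha5⟩ : ∃ (a : IL M n) (J' : Fin (n + 1)),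
            (J' : ℕ) = i / k ∧ M.orig n a = some (mf i) ∧ (k ∣ i → M.isN n a) ∧
            M.irule n a = ⟨some (M.rule (mf i)).Z, .run (M.rule (mf i)).q J, (M.rule (mf i)).x,
              (M.rule (mf i)).γ.map some, .run (M.rule (mf i)).p J'⟩ ∧ True := by
          have e1 : i = (i - 1) + 1 := by omega
          by_cases hd : k ∣ i
          · have h2 : i / k = (i - 1) / k + 1 := by
              conv_lhs => rw [e1]
              rw [Nat.succ_div, if_pos (by rw [← e1]; exact hd)]
            have hJn : (J : ℕ) < n := by omega
            refine ⟨.new (mf i) ⟨J, hJn⟩, (⟨J, hJn⟩ : Fin n).succ, ?_, rfl, fun _ => trivial, rfl,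
              trivial⟩
            simp only [Fin.succ_mk]
            omega
          · have h2 : i / k = (i - 1) / k := by
              conv_lhs => rw [e1]
              rw [Nat.succ_div, if_neg (by rw [← e1]; exact hd), add_zero]
            refine ⟨.cont (mf i) J, J, ?_, rfl, fun h => absurd h hd, rfl, trivial⟩
            omega
        obtain ⟨ν, f1, f2, f3⟩ := ih (i + 1) c' J' (by omega) (by omega)
          (by rw [ha1, Nat.add_sub_cancel]) hrest
        refine ⟨a :: ν, by rw [List.length_cons, f1], ?_, ?_⟩
        · refine Steps.cons (M := M.inc n) (r := a) ?_ f2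
          refine ⟨none :: η.map some, v, ?_, ?_⟩
          · show _ = Config.mk (none :: η.map some ++ [(M.irule n a).Z]) (M.irule n a).q
              ((M.irule n a).x ++ v)
            rw [ha4, hc]
            simp [emb]
          · show _ = Config.mk (none :: η.map some ++ (M.irule n a).γ) (M.irule n a).p v
            rw [ha4, hc']
            simp [emb]
        · intro l b hb
          cases l with
          | zero =>
            simp only [List.getElem?_cons_zero, Option.some.injEq] at hb
            subst hb
            refine ⟨ha2, ha3, J', ha1, by rw [ha4]; rfl⟩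
          | succ l =>
            simp only [List.getElem?_cons_succ] at hb
            have := f3 l b hb
            have e : i + 1 + l = i + (l + 1) := by ring
            rw [e] at this
            exact this
  -- the first step
  have hμ0 : μ = mf 0 :: μ.drop 1 := by
    have h1 := List.drop_eq_getElem_cons h0
    have h2 : μ[0] = mf 0 := by
      have := hmfget 0 hLpos
      rw [List.getElem?_eq_getElem h0] at this
      simpa using this
    rw [h2] at h1
    simpa using h1
  have hst0 := hst
  rw [hμ0] at hst0
  cases hst0 with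
  | cons hs hr =>
    rename_i c''
    obtain ⟨η, u, h1, h2⟩ := hs
    have hq : M.q₀ = (M.rule (mf 0)).q := congrArg Config.state h1
    have hS : [M.Z₀] = η ++ [(M.rule (mf 0)).Z] := congrArg Config.stack h1
    have hv : w = (M.rule (mf 0)).x ++ u := congrArg Config.input h1
    have hη : η = [] := by
      cases η with
      | nil => rfl
      | cons a η => simp at hS
    have hZ : (M.rule (mf 0)).Z = M.Z₀ := by
      rw [hη] at hS
      simpa using hS.symm
    obtain ⟨ν, f1, f2, f3⟩ := main (L - 1) 1 c'' 0 (by omega) (le_refl _)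
      (by simp) hr
    set a0 : IL M n := .start ⟨mf 0, hZ, hq.symm⟩ with ha0
    have hstart : (M.inc n).Step a0 ⟨[none], .st, w⟩ (M.emb n c'' 0) := by
      refine ⟨[], u, ?_, ?_⟩
      · rw [hv]; rfl
      · rw [h2, hη]; rfl
    have hall : ∀ l a, (a0 :: ν)[l]? = some a → M.orig n a = some (mf l) ∧
        (k ∣ l → M.isN n a) ∧ ∃ J' : Fin (n + 1), (J' : ℕ) = l / k ∧
            (M.irule n a).p = .run (M.rule (mf l)).p J' := by
      intro l a h
      cases l with
      | zero =>
        simp only [List.getElem?_cons_zero, Option.some.injEq] at h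
        subst h
        exact ⟨rfl, fun _ => trivial, 0, by simp, rfl⟩
      | succ l =>
        simp only [List.getElem?_cons_succ] at h
        have := f3 l a h
        have e : 1 + l = l + 1 := by ring
        rw [e] at this
        exact this
    have hl0 : (a0 :: ν).length = L := by rw [List.length_cons, f1]; omega
    have hgl : ∀ i, i < L → ((a0 :: ν) ++ dums (n := n) ⟨f, hf⟩ k)[i]? = (a0 :: ν)[i]? := by
      intro i hi
      rw [List.getElem?_append_left (by omega)]
    have hex : ∀ i, i < L → ∃ a, (a0 :: ν)[i]? = some a := by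
      intro i hi
      have : i < (a0 :: ν).length := by omega
      exact ⟨(a0 :: ν)[i], List.getElem?_eq_getElem this⟩
    have hke : (n + 1 + 1) * k = (n + 1) * k + k := by ring
    refine ⟨.fin, rfl, (a0 :: ν) ++ dums ⟨f, hf⟩ k, ?_, k, hk, ?_, ?_, ?_, ?_⟩
    · refine Steps.append (Steps.cons hstart f2) ?_
      exact dums_run ⟨f, hf⟩ k hk
    · rw [List.length_append, hl0, length_dums]; omega
    · obtain ⟨a, ha⟩ := hex (k - 1) (by omega)
      refine ⟨a, by rw [hgl _ (by omega)]; exact ha, ?_⟩
      obtain ⟨_, _, J', hJ', hp⟩ := hall _ a ha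
      show (M.irule n a).p = .run M.qt 0
      rw [hp]
      obtain ⟨r, hr1, hr2⟩ := hqt
      rw [hmfget (k - 1) (by omega)] at hr1
      simp only [Option.some.injEq] at hr1
      rw [hr1, hr2]
      have : J' = 0 := by
        apply Fin.ext
        rw [hJ', Nat.div_eq_of_lt (by omega)]; rfl
      rw [this]
    · intro i hi a ha
      rw [hgl _ (by omega)] at ha
      obtain ⟨_, _, J', hJ', hp⟩ := hall _ a ha
      show (M.irule n a).p ≠ .run M.qt 0
      rw [hp]
      intro hcon
      simp only [IQ.run.injEq] at hcon
      exact hnqt i hi _ (hmfget i (by omega)) hcon.1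
    · intro j hj
      have hlt' : j * k < L := Nat.mul_lt_mul_of_pos_right (by omega) (by omega)
      obtain ⟨a, ha⟩ := hex _ hlt'
      rcases Nat.lt_or_ge j n with hjn | hjn
      · have hlt : (j + 1) * k < L := Nat.mul_lt_mul_of_pos_right (by omega) (by omega)
        obtain ⟨b, hb⟩ := hex _ hlt
        refine ⟨a, b, by rw [hgl _ hlt']; exact ha, by rw [hgl _ hlt]; exact hb, ?_, ?_⟩
        · exact (hall _ b hb).2.1 (Dvd.intro_left (j + 1) rfl)
        · intro r s hr hs
          rw [(hall _ a ha).1] at hr
          rw [(hall _ b hb).1] at hs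
          simp only [Option.some.injEq] at hr hs
          obtain ⟨r', s', e1, e2, e3⟩ := hR j hjn
          rw [hmfget _ hlt'] at e1
          rw [hmfget _ hlt] at e2
          simp only [Option.some.injEq] at e1 e2
          rw [← hr, ← hs, e1, e2]; exact e3
      · have hjn' : j = n := by omega
        have hd0 : ∃ b, (dums (n := n) (M := M) ⟨f, hf⟩ k)[0]? = some b ∧ M.isN n b ∧
            M.orig n b = none := by
          match k, hk with
          | 1, _ => exact ⟨_, rfl, trivial, rfl⟩
          | k + 2, _ => exact ⟨_, rfl, trivial, rfl⟩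
        obtain ⟨b, hb, hbN, hbo⟩ := hd0
        refine ⟨a, b, by rw [hgl _ hlt']; exact ha, ?_, hbN, ?_⟩
        · rw [hjn', ← hL, List.getElem?_append_right (by omega), hl0, Nat.sub_self]
          exact hb
        · intro r s _ hs
          rw [hbo] at hs
          simp at hs

theorem inc_language (M : SPDA α) (n : ℕ) : (M.inc n).language (n + 1) = M.language n := by
  ext w
  exact ⟨inc_sound, inc_complete⟩

end SPDA

end Pool.Agent.Helper15_Fspda
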