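import Mathlib

set_option autoImplicit false

namespace Pool.Agent.Helper15_Fspda

/-- Finite binary trees with leaf labels in `B` and node labels in `C`. -/
inductive Tree (B C : Type) : Type
  | leaf : B → Tree B C
  | node : C → Tree B C → Tree B C → Tree B C

namespace Tree

variable {B C : Type}

/-- number of nodes -/
def size : Tree B C → ℕ
  | leaf _ => 1
  | node _ l r => size l + size r + 1

/-- root label -/
def root : Tree B C → B ⊕ C
  | leaf b => Sum.inl b
  | node c _ _ => Sum.inr c

/-- homeomorphic embedding -/
inductive Emb : Tree B C → Tree B C → Prop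
  | leaf (b : B) : Emb (.leaf b) (.leaf b)
  | node (c : C) {l r l' r' : Tree B C} :
      Emb l l' → Emb r r' → Emb (.node c l r) (.node c l' r')
  | left (c : C) {t l r : Tree B C} : Emb t l → Emb t (.node c l r)
  | right (c : C) {t l r : Tree B C} : Emb t r → Emb t (.node c l r)

lemma Emb.refl (t : Tree B C) : Emb t t := by
  induction t with
  | leaf b => exact Emb.leaf b
  | node c l r hl hr => exact Emb.node c hl hr

lemma Emb.trans {s t u : Tree B C} (h1 : Emb s t) (h2 : Emb t u) : Emb s u := by
  induction h2 generalizing s with
  | leaf b => exact h1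
  | node c _ _ ihl ihr =>
    cases h1 with
    | node _ a b => exact Emb.node c (ihl a) (ihr b)
    | left _ a => exact Emb.left c (ihl a)
    | right _ a => exact Emb.right c (ihr a)
  | left c _ ih => exact Emb.left c (ih h1)
  | right c _ ih => exact Emb.right c (ih h1)

instance : IsPreorder (Tree B C) Emb where
  refl := Emb.refl
  trans _ _ _ := Emb.trans

/-- Kruskal's theorem for binary trees with finitely many labels. -/
theorem kruskal [Finite B] [Finite C] :
    (Set.univ : Set (Tree B C)).PartiallyWellOrderedOn Emb := by
  classical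
  rw [Set.PartiallyWellOrderedOn.iff_not_exists_isMinBadSeq size]
  rintro ⟨f, hf1, hf2⟩
  -- infinitely many trees with the same root label
  obtain ⟨lab, hlab⟩ := Finite.exists_infinite_fiber (fun n => root (f n))
  have hinf : ((fun n => root (f n)) ⁻¹' {lab}).Infinite := by
    rwa [← Set.infinite_coe_iff]
  obtain ⟨g, hgmono, hg⟩ : ∃ g : ℕ → ℕ, StrictMono g ∧ ∀ k, root (f (g k)) = lab := by
    refine ⟨Nat.nth (fun n => root (f n) = lab), Nat.nth_strictMono hinf, fun k => ?_⟩
    exact Nat.nth_mem_of_infinite hinf k
  rcases lab with b | c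
  · have h : ∀ k, f (g k) = leaf b := by
      intro k
      have := hg k
      cases hfk : f (g k) with
      | leaf b' => rw [hfk] at this; simp [root] at this; rw [this]
      | node c l r => rw [hfk] at this; simp [root] at this
    apply hf1.2 (g 0) (g 1) (hgmono Nat.zero_lt_one)
    rw [h, h]
    exact Emb.leaf b
  · have h : ∀ k, ∃ lr : Tree B C × Tree B C, f (g k) = node c lr.1 lr.2 := by
      intro k
      have := hg k
      cases hfk : f (g k) with
      | leaf b' => rw [hfk] at this; simp [root] at this
      | node c' l r =>
        rw [hfk] at this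
        simp [root] at this
        exact ⟨(l, r), by rw [this]⟩
    choose lr hlr using h
    set D : Set (Tree B C) := Set.range (fun k => (lr k).1) ∪ Set.range (fun k => (lr k).2) with hD
    have hDpwo : D.PartiallyWellOrderedOn Emb := by
      rw [Set.PartiallyWellOrderedOn.iff_forall_not_isBadSeq]
      intro h hbad
      have hk : ∀ i, ∃ κ, Emb (h i) (f (g κ)) ∧ size (h i) < size (f (g κ)) := by
        intro i
        rcases hbad.1 i with ⟨κ, hκ⟩ | ⟨κ, hκ⟩
        · refine ⟨κ, ?_, ?_⟩
          · rw [hlr κ, ← hκ]
            exact Emb.left c (Emb.refl _)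
          · rw [hlr κ, ← hκ]
            simp only [size]
            omega
        · refine ⟨κ, ?_, ?_⟩
          · rw [hlr κ, ← hκ]
            exact Emb.right c (Emb.refl _)
          · rw [hlr κ, ← hκ]
            simp only [size]
            omega
      choose κ hκ1 hκ2 using hk
      obtain ⟨i0, hi0⟩ : ∃ i0, ∀ i, κ i0 ≤ κ i := by
        have hne : (Set.range κ).Nonempty := ⟨κ 0, 0, rfl⟩
        obtain ⟨i0, hi0⟩ := Nat.sInf_mem hne
        exact ⟨i0, fun i => by rw [hi0]; exact Nat.sInf_le ⟨i, rfl⟩⟩
      set N := g (κ i0) with hN
      refine hf2 N (fun n => if n < N then f n else h (n - N + i0)) ?_ ?_ ?_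
      · intro m hm
        simp [hm]
      · simp only [lt_irrefl, if_false, Nat.sub_self, zero_add]
        exact hκ2 i0
      · refine ⟨fun _ => Set.mem_univ _, fun m n hmn => ?_⟩
        by_cases hn : n < N
        · have hm : m < N := lt_trans hmn hn
          simp only [hm, hn, if_true]
          exact hf1.2 m n hmn
        · by_cases hm : m < N
          · simp only [hm, hn, if_true, if_false]
            intro hemb
            have := Emb.trans hemb (hκ1 (n - N + i0))
            refine hf1.2 m _ (lt_of_lt_of_le hm ?_) this
            exact hgmono.monotone (hi0 _)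
          · simp only [hm, hn, if_false]
            apply hbad.2
            omega
    have hprod := hDpwo.prod hDpwo
    rw [Set.partiallyWellOrderedOn_iff_exists_lt] at hprod
    obtain ⟨m, n, hmn, h1, h2⟩ := hprod lr (fun k => ⟨Or.inl ⟨k, rfl⟩, Or.inr ⟨k, rfl⟩⟩)
    apply hf1.2 (g m) (g n) (hgmono hmn)
    rw [hlr, hlr]
    exact Emb.node c h1 h2

/-- Usable form. -/
theorem exists_emb [Finite B] [Finite C] (f : ℕ → Tree B C) : ∃ m n, m < n ∧ Emb (f m) (f n) := by
  have h := kruskal (B := B) (C := C)
  rw [Set.partiallyWellOrderedOn_iff_exists_lt] at h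
  exact h f (fun _ => Set.mem_univ _)

end Tree

end Pool.Agent.Helper15_Fspda
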