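import Pool.Agent.Helper15_Fspda.Annot

set_option autoImplicit false

namespace Pool.Agent.Helper15_Fspda

open PDS

namespace SPDA

variable {α : Type} (M : SPDA α) {n : ℕ}

/-- From an accepting computation with turn shape to a balanced annotated run. -/
lemma run_of_steps {w : List α} {f : M.Q} {μ : List M.Ψ}
    (hst : M.Steps ⟨[M.Z₀], M.q₀, w⟩ μ ⟨[], f, []⟩) (hsh : M.TurnShape n μ) :
    ∃ (W : List (M.annot n).E) (ρ : M.Ψ),
      (M.annot n).Run none [M.Z₀] W (some (f, Fin.last n, ρ)) ∧
      W.flatMap (M.out n) = w ∧ (∃ k, 1 ≤ k ∧ ∀ j, cnt (M.blk n) j W = k) ∧ (n = 0 → f = M.qt) := by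
  classical
  obtain ⟨k, hk, hlen, hqt, hnqt, hR⟩ := hsh
  set L := (n + 1) * k with hL
  have hkL : k ≤ L := Nat.le_mul_of_pos_left k (by omega)
  have hLpos : 0 < L := by omega
  have h0 : 0 < μ.length := by omega
  set r0 := μ[0] with hr0
  set mf : ℕ → M.Ψ := fun i => μ.getD i r0 with hmf
  have hmfget : ∀ i, i < L → μ[i]? = some (mf i) := by
    intro i hi
    rw [hmf]
    simp only
    have : i < μ.length := by omega
    rw [List.getElem?_eq_getElem this, List.getD_eq_getElem _ _ this]
  have hofNat : ∀ i, i < n + 1 → ((Fin.ofNat (n + 1) i : Fin (n + 1)) : ℕ) = i := by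
    intro i hi
    simp [Fin.ofNat, Nat.mod_eq_of_lt hi]
  set a : ℕ → M.AS n := fun i => match i with
    | 0 => none
    | i + 1 => some ((M.rule (mf i)).p, Fin.ofNat (n + 1) (i / k), mf (i / k * k)) with ha
  have ha0 : a 0 = none := rfl
  have hasucc : ∀ i, a (i + 1)
      = some ((M.rule (mf i)).p, Fin.ofNat (n + 1) (i / k), mf (i / k * k)) := fun i => rfl
  have hdiv : ∀ i, i < L → i / k < n + 1 := by
    intro i hi
    exact Nat.div_lt_of_lt_mul (by rw [mul_comm]; exact hi)
  have htr : ∀ i, i < L → (M.rule (mf i)).q = M.st n (a i) → M.Tr n (a i) (mf i) (a (i + 1)) := by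
    intro i hi hq
    cases i with
    | zero =>
      refine ⟨hq, ?_⟩
      rw [hasucc, Nat.zero_div, Nat.zero_mul]
      rfl
    | succ i =>
      rw [hasucc i]
      refine ⟨hq, ?_⟩
      have hi' : i / k < n + 1 := hdiv i (by omega)
      have hi'' : (i + 1) / k < n + 1 := hdiv (i + 1) hi
      by_cases hd : k ∣ i + 1
      · right
        have h2 : (i + 1) / k = i / k + 1 := by rw [Nat.succ_div, if_pos hd]
        refine ⟨Fin.ofNat (n + 1) ((i + 1) / k), ?_, ?_, ?_, ?_⟩
        · rw [hofNat _ hi'', hofNat _ hi', h2]
        · intro h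
          have h' : i / k = 0 := by
            have := congrArg (fun x : Fin (n + 1) => (x : ℕ)) h
            simp only [hofNat _ hi'] at this
            simpa using this
          have hik : i < k := by
            rcases Nat.div_eq_zero_iff.mp h' with h | h
            · omega
            · exact h
          have hik2 : i = k - 1 := by
            have := Nat.le_of_dvd (by omega) hd
            omega
          obtain ⟨r, hr, hr2⟩ := hqt
          rw [← hik2, hmfget i (by omega)] at hr
          simp only [Option.some.injEq] at hr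
          rw [hr]; exact hr2
        · have hj : i / k < n := by omega
          obtain ⟨r, s, hr, hs, hrs⟩ := hR (i / k) hj
          have h3 : (i / k + 1) * k = i + 1 := by rw [← h2]; exact Nat.div_mul_cancel hd
          rw [h3, hmfget (i + 1) hi] at hs
          have h4 : i / k * k < L := lt_of_le_of_lt (Nat.div_mul_le_self i k) (by omega)
          rw [hmfget _ h4] at hr
          simp only [Option.some.injEq] at hr hs
          rw [hr, hs]; exact hrs
        · rw [hasucc, Nat.div_mul_cancel hd]
      · left
        have h2 : (i + 1) / k = i / k := by rw [Nat.succ_div, if_neg hd, add_zero]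
        refine ⟨?_, ?_⟩
        · intro h
          have h' : i / k = 0 := by
            have := congrArg (fun x : Fin (n + 1) => (x : ℕ)) h
            simp only [hofNat _ hi'] at this
            simpa using this
          have hik : i < k := by
            rcases Nat.div_eq_zero_iff.mp h' with h | h
            · omega
            · exact h
          have hik2 : i < k - 1 := by
            have : i + 1 ≠ k := fun h => hd (by rw [h])
            omega
          exact hnqt i hik2 _ (hmfget i (by omega))
        · rw [hasucc, h2]
  have main : ∀ d i (c : Config M.Q M.Γ α), i + d = L → M.Steps c (μ.drop i) ⟨[], f, []⟩ →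
      c.state = M.st n (a i) → ∃ W : List (M.annot n).E,
        (M.annot n).Run (a i) c.stack.reverse W (a L) ∧ W.flatMap (M.out n) = c.input ∧
        W.map (fun e => (M.blk n e : ℕ)) = ((List.range L).drop i).map (· / k) ∧
        f = M.st n (a L) := by
    intro d
    induction d with
    | zero =>
      intro i c hi hs hq
      have hi' : i = L := by omega
      rw [List.drop_eq_nil_of_le (by omega)] at hs
      cases hs
      refine ⟨[], ?_, rfl, ?_, ?_⟩
      · rw [hi']; exact Run.nil _
      · rw [List.drop_eq_nil_of_le (by simp; omega)]; rfl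
      · rw [hi'] at hq; exact hq
    | succ d ih =>
      intro i c hi hs hq
      have hiL : i < L := by omega
      have hil : i < μ.length := by omega
      rw [List.drop_eq_getElem_cons hil] at hs
      have hmi : μ[i] = mf i := by
        have := hmfget i hiL
        rw [List.getElem?_eq_getElem hil] at this
        simpa using this
      rw [hmi] at hs
      cases hs with
      | cons hstep hrest =>
        rename_i c'
        obtain ⟨η, v, hc, hc'⟩ := hstep
        have hqi : (M.rule (mf i)).q = M.st n (a i) := by rw [← hq, hc]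
        obtain ⟨W', hrun, hout, hblk, hf⟩ := ih (i + 1) c' (by omega) hrest (by
          rw [hc', hasucc]; rfl)
        let e : (M.annot n).E := ⟨(a i, mf i, a (i + 1)), htr i hiL hqi⟩
        refine ⟨e :: W', ?_, ?_, ?_, hf⟩
        · have h1 : (M.annot n).Run ((M.annot n).src e) ((M.annot n).top e :: η.reverse) (e :: W')
              (a L) := by
            apply Run.cons e
            have h2 : c'.stack.reverse = (M.rule (mf i)).γ.reverse ++ η.reverse := by
              rw [hc']
              exact List.reverse_append
            rw [h2] at hrun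
            exact hrun
          have h3 : c.stack.reverse = (M.annot n).top e :: η.reverse := by
            rw [hc]
            simp only [List.reverse_append, List.reverse_cons, List.reverse_nil, List.nil_append]
            rfl
          rw [h3]
          exact h1
        · rw [List.flatMap_cons, hout, hc, hc']
          rfl
        · have hrl : i < (List.range L).length := by simpa using hiL
          rw [List.drop_eq_getElem_cons hrl, List.map_cons, List.map_cons, hblk]
          congr 1
          have : M.blk n e = Fin.ofNat (n + 1) (i / k) := rfl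
          rw [this, hofNat _ (hdiv i hiL), List.getElem_range]
  obtain ⟨W, hrun, hout, hblk, hf⟩ := main L 0 ⟨[M.Z₀], M.q₀, w⟩ (by omega) (by simpa using hst) rfl
  have hLs : a L = some (f, Fin.last n, mf ((L - 1) / k * k)) := by
    have h1 : L = (L - 1) + 1 := by omega
    have h2 : a L = a ((L - 1) + 1) := by rw [← h1]
    rw [hasucc] at h2
    have h3 : (L - 1) / k = n := by
      have : L - 1 = (k - 1) + n * k := by
        have : L = n * k + k := by rw [hL]; ring
        omega
      rw [this, Nat.add_mul_div_right _ _ (by omega), Nat.div_eq_of_lt (by omega), zero_add]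
    rw [h2] at hf ⊢
    have h4 : (Fin.ofNat (n + 1) ((L - 1) / k) : Fin (n + 1)) = Fin.last n := by
      apply Fin.ext
      rw [h3, hofNat n (by omega)]; rfl
    have h5 : f = (M.rule (mf (L - 1))).p := hf
    rw [h4, h5]
  refine ⟨W, mf ((L - 1) / k * k), ?_, hout, ⟨k, hk, ?_⟩, ?_⟩
  · rw [← hLs]; exact hrun
  · intro j
    rw [cnt_eq_count, hblk, List.drop_zero, count_map_div_range n k hk, if_pos j.2]
  · intro hn
    have h1 : L = k := by rw [hL, hn]; ring
    have h2 : a L = a ((k - 1) + 1) := by
      have : k - 1 + 1 = k := by omega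
      rw [this, h1]
    rw [h2, hasucc] at hf
    have h5 : f = (M.rule (mf (k - 1))).p := hf
    obtain ⟨r, hr, hr2⟩ := hqt
    rw [hmfget (k - 1) (by omega)] at hr
    simp only [Option.some.injEq] at hr
    rw [h5, hr]; exact hr2

/-- The language `{0^m 1^m … (s-1)^m : m ≥ 1}` is accepted with `n` turns only if
`s ≤ 2(n+1)`. -/
theorem letters_le {s : ℕ} (M : SPDA (Fin s)) (n : ℕ)
    (h : M.language n = {w | ∃ m, 1 ≤ m ∧ w = word s m}) : s ≤ 2 * (n + 1) := by
  classical
  have := M.finite_Q
  have := M.finite_Ψ
  have hS : Finite (M.annot n).S := by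
    show Finite (Option (M.Q × Fin (n + 1) × M.Ψ))
    infer_instance
  have hE : Finite (M.annot n).E := by
    show Finite {e : M.AS n × M.Ψ × M.AS n // M.Tr n e.1 e.2.1 e.2.2}
    infer_instance
  refine nf_bound (M.annot n) hS hE none M.Z₀
    {x : M.AS n | ∃ f ρ, x = some (f, Fin.last n, ρ) ∧ f ∈ M.F ∧ (n = 0 → f = M.qt)}
    (M.out n) (M.blk n) ?_ ?_
  · rintro W x ⟨f, ρ, rfl, hfF, hf0⟩ hrun ⟨k, hk, hc⟩
    have hsteps := M.steps_of_run n hrun []
    rw [List.append_nil] at hsteps
    have hsh := M.turnShape_of_path (M.isPath_of_run n hrun) hf0 hk hc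
    have hmem : W.flatMap (M.out n) ∈ M.language n := ⟨f, hfF, _, hsteps, hsh⟩
    rw [h] at hmem
    obtain ⟨m, _, hm⟩ := hmem
    exact ⟨m, hm⟩
  · intro m hm
    have hmem : word s m ∈ M.language n := by rw [h]; exact ⟨m, hm, rfl⟩
    obtain ⟨f, hf, μ, hst, hsh⟩ := hmem
    obtain ⟨W, ρ, hrun, hout, hbal, hf0⟩ := M.run_of_steps hst hsh
    exact ⟨W, _, ⟨f, ρ, rfl, hf, hf0⟩, hrun, hbal, hout⟩

end SPDA

end Pool.Agent.Helper15_Fspda
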