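import Pool.Agent.Helper15_Fspda.Kruskal

set_option autoImplicit false

namespace Pool.Agent.Helper15_Fspda

/-- A pushdown system with transitions `e : E`; the stack is a list whose head is the top. -/
structure PDS where
  S : Type
  Γ : Type
  E : Type
  src : E → S
  top : E → Γ
  push : E → List Γ
  tgt : E → S

namespace PDS

variable (P : PDS)

/-- `Run s α w s'`: from state `s` the stack segment `α` is popped by the transitions `w`, ending
in state `s'`. -/
inductive Run : P.S → List P.Γ → List P.E → P.S → Prop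
  | nil (s : P.S) : Run s [] [] s
  | cons (e : P.E) {α : List P.Γ} {w : List P.E} {s' : P.S} :
      Run (P.tgt e) (P.push e ++ α) w s' → Run (P.src e) (P.top e :: α) (e :: w) s'

variable {P}

lemma Run.split {s s' : P.S} {γ : List P.Γ} {w : List P.E} (h : P.Run s γ w s') :
    ∀ α β, γ = α ++ β → ∃ t w1 w2, w = w1 ++ w2 ∧ P.Run s α w1 t ∧ P.Run t β w2 s' := by
  induction h with
  | nil s =>
    intro α β h
    have h' := List.append_eq_nil_iff.mp h.symm
    exact ⟨s, [], [], rfl, by rw [h'.1]; exact Run.nil s, by rw [h'.2]; exact Run.nil s⟩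
  | cons e hr ih =>
    rename_i α0 w0 s0
    intro α β h
    cases α with
    | nil =>
      refine ⟨P.src e, [], e :: w0, rfl, Run.nil _, ?_⟩
      simp only [List.nil_append] at h
      rw [← h]
      exact Run.cons e hr
    | cons Z α' =>
      simp only [List.cons_append, List.cons.injEq] at h
      obtain ⟨hZ, hα⟩ := h
      obtain ⟨t, w1, w2, hw, h1, h2⟩ := ih (P.push e ++ α') β (by rw [hα, List.append_assoc])
      refine ⟨t, e :: w1, w2, by rw [hw]; rfl, ?_, h2⟩
      rw [← hZ]
      exact Run.cons e h1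

lemma Run.join {s t s' : P.S} {α β : List P.Γ} {w1 w2 : List P.E} (h1 : P.Run s α w1 t)
    (h2 : P.Run t β w2 s') : P.Run s (α ++ β) (w1 ++ w2) s' := by
  induction h1 with
  | nil s => exact h2
  | cons e hr ih =>
    rename_i α0 w0 s0
    have := ih h2
    rw [List.append_assoc] at this
    exact Run.cons e this

/-- The node labels. -/
abbrev Lab (P : PDS) (T : Set (List P.Γ)) : Type := P.E × T × P.S × P.S

/-- The word of transitions of a tree. -/
def yield {T : Set (List P.Γ)} : Tree P.S (Lab P T) → List P.E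
  | .leaf _ => []
  | .node c l r => c.1 :: (yield l ++ yield r)

/-- Valid derivation trees. -/
inductive Valid {T : Set (List P.Γ)} : Tree P.S (Lab P T) → P.S → List P.Γ → P.S → Prop
  | leaf (s : P.S) : Valid (.leaf s) s [] s
  | node (e : P.E) (α : T) (t s' : P.S) {l r : Tree P.S (Lab P T)} :
      Valid l (P.tgt e) (P.push e) t → Valid r t α.1 s' →
      Valid (.node (e, α, t, s') l r) (P.src e) (P.top e :: α.1) s'

lemma Valid.run {T : Set (List P.Γ)} {τ : Tree P.S (Lab P T)} {s : P.S} {α : List P.Γ} {s' : P.S}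
    (h : Valid τ s α s') : P.Run s α (yield τ) s' := by
  induction h with
  | leaf s => exact Run.nil s
  | node e α t s' _ _ ihl ihr =>
    exact Run.cons e (Run.join ihl ihr)

lemma exists_valid {T : Set (List P.Γ)} (hsuf : ∀ Z α, Z :: α ∈ T → α ∈ T)
    (hpush : ∀ e, P.push e ∈ T) : ∀ (n : ℕ) (w : List P.E), w.length = n →
      ∀ (s : P.S) (β : List P.Γ) (s' : P.S), β ∈ T → P.Run s β w s' →
      ∃ τ : Tree P.S (Lab P T), Valid τ s β s' ∧ yield τ = w := by
  intro n
  induction n using Nat.strong_induction_on with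
  | _ n ih =>
    intro w hw s β s' hβ hrun
    cases hrun with
    | nil s => exact ⟨.leaf s, Valid.leaf s, rfl⟩
    | cons e hr =>
      rename_i α w'
      obtain ⟨t, w1, w2, hww, h1, h2⟩ := hr.split (P.push e) α rfl
      have hlen : w1.length + w2.length + 1 = n := by
        rw [← hw, hww]; simp
      obtain ⟨l, hl, hyl⟩ := ih w1.length (by omega) w1 rfl _ _ _ (hpush e) h1
      obtain ⟨r, hr', hyr⟩ := ih w2.length (by omega) w2 rfl _ _ _ (hsuf _ _ hβ) h2
      refine ⟨.node (e, ⟨α, hsuf _ _ hβ⟩, t, s') l r, Valid.node e ⟨α, hsuf _ _ hβ⟩ t s' hl hr', ?_⟩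
      simp only [yield]
      rw [hyl, hyr, hww]

/-- sum of a weight over a word -/
def wt {E : Type} (g : E → ℕ) (w : List E) : ℕ := (w.map g).sum

@[simp] lemma wt_nil {E : Type} (g : E → ℕ) : wt g [] = 0 := rfl
@[simp] lemma wt_cons {E : Type} (g : E → ℕ) (e : E) (w : List E) :
    wt g (e :: w) = g e + wt g w := by simp [wt]
@[simp] lemma wt_append {E : Type} (g : E → ℕ) (w w' : List E) :
    wt g (w ++ w') = wt g w + wt g w' := by simp [wt]

/-- powers of a word -/
def pw {E : Type} (u : List E) : ℕ → List E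
  | 0 => []
  | n + 1 => u ++ pw u n

@[simp] lemma wt_pw {E : Type} (g : E → ℕ) (u : List E) (n : ℕ) : wt g (pw u n) = n * wt g u := by
  induction n with
  | zero => simp [pw]
  | succ n ih => rw [pw, wt_append, ih]; ring

lemma pw_comm {E : Type} (u : List E) (n : ℕ) : u ++ pw u n = pw u n ++ u := by
  induction n with
  | zero => simp [pw]
  | succ n ih =>
    have : pw u (n + 1) = u ++ pw u n := rfl
    rw [this]
    conv_lhs => rw [ih]
    simp [List.append_assoc]

lemma infix_pw {E : Type} (u : List E) (n : ℕ) (h : 2 ≤ n) : (u ++ u) <:+: pw u n := by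
  obtain ⟨m, rfl⟩ := Nat.exists_eq_add_of_le h
  refine ⟨[], pw u m, ?_⟩
  rw [add_comm 2 m]
  simp [pw, List.append_assoc]

/-- A pumping family from `w` to `w'` for the triple `(s, α, s')`. -/
def Fam (s : P.S) (α : List P.Γ) (s' : P.S) (w w' : List P.E) : Prop :=
  ∃ (ι : Type) (_ : Fintype ι) (u v : ι → List P.E) (W : (ι → ℕ) → List P.E),
    W (fun _ => 0) = w ∧ W (fun _ => 1) = w' ∧ (∀ t, P.Run s α (W t) s') ∧
    (∀ t (g : P.E → ℕ), wt g (W t) = wt g w + ∑ k, t k * (wt g (u k) + wt g (v k))) ∧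
    (∀ t k, 2 ≤ t k → (u k ++ u k) <:+: W t ∧ (v k ++ v k) <:+: W t)

/-- A context. -/
def Ctx (s : P.S) (α : List P.Γ) (s' : P.S) (r : P.S) (β : List P.Γ) (r' : P.S)
    (x y : List P.E) : Prop :=
  ∀ w, P.Run s α w s' → P.Run r β (x ++ w ++ y) r'

lemma Ctx.iter {s : P.S} {α : List P.Γ} {s' : P.S} {x y : List P.E} (h : Ctx s α s' s α s' x y)
    (n : ℕ) : ∀ w, P.Run s α w s' → P.Run s α (pw x n ++ w ++ pw y n) s' := by
  induction n with
  | zero => intro w hw; simpa [pw] using hw
  | succ n ih =>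
    intro w hw
    have := h _ (ih w hw)
    have e : pw x (n + 1) ++ w ++ pw y (n + 1) = x ++ (pw x n ++ w ++ pw y n) ++ y := by
      have h1 : pw y (n + 1) = pw y n ++ y := by
        rw [← pw_comm]; rfl
      have h2 : pw x (n + 1) = x ++ pw x n := rfl
      rw [h1, h2]
      simp [List.append_assoc]
    rw [e]
    exact this

lemma Fam.ctx {s : P.S} {α : List P.Γ} {s' : P.S} {w w' x y : List P.E}
    (hc : Ctx s α s' s α s' x y) (h : Fam s α s' w w') : Fam s α s' w (x ++ w' ++ y) := by
  obtain ⟨ι, _, u, v, W, h0, h1, hrun, hwt, hinf⟩ := h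
  refine ⟨Option ι, inferInstance, fun k => k.elim x u, fun k => k.elim y v,
    fun t => pw x (t none) ++ W (fun k => t (some k)) ++ pw y (t none), ?_, ?_, ?_, ?_, ?_⟩
  · simp [pw, h0]
  · simp [pw, h1]
  · intro t
    exact hc.iter _ _ (hrun _)
  · intro t g
    simp only [wt_append, wt_pw, hwt, Fintype.sum_option, Option.elim_none, Option.elim_some]
    ring
  · intro t k hk
    cases k with
    | none =>
      refine ⟨?_, ?_⟩
      · simp only [Option.elim_none, List.append_assoc]
        exact (infix_pw x _ hk).trans (List.prefix_append _ _).isInfix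
      · simp only [Option.elim_none]
        exact (infix_pw y _ hk).trans (List.suffix_append _ _).isInfix
    | some k =>
      obtain ⟨a, b⟩ := hinf (fun k => t (some k)) k hk
      simp only [Option.elim_some]
      have hmid : W (fun k => t (some k)) <:+:
          pw x (t none) ++ W (fun k => t (some k)) ++ pw y (t none) :=
        ⟨_, _, rfl⟩
      exact ⟨a.trans hmid, b.trans hmid⟩

lemma Fam.node {e : P.E} {t : P.S} {α : List P.Γ} {s' : P.S} {w1 w1' w2 w2' : List P.E}
    (h1 : Fam (P.tgt e) (P.push e) t w1 w1') (h2 : Fam t α s' w2 w2') :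
    Fam (P.src e) (P.top e :: α) s' (e :: (w1 ++ w2)) (e :: (w1' ++ w2')) := by
  obtain ⟨ι, _, u, v, W, h0, h1, hrun, hwt, hinf⟩ := h1
  obtain ⟨κ, _, u', v', W', h0', h1', hrun', hwt', hinf'⟩ := h2
  refine ⟨ι ⊕ κ, inferInstance, Sum.elim u u', Sum.elim v v',
    fun t => e :: (W (fun k => t (Sum.inl k)) ++ W' (fun k => t (Sum.inr k))), ?_, ?_, ?_, ?_, ?_⟩
  · simp [h0, h0']
  · simp [h1, h1']
  · intro t
    exact Run.cons e (Run.join (hrun _) (hrun' _))
  · intro t g
    simp only [wt_cons, wt_append, hwt, hwt', Fintype.sum_sum_type, Sum.elim_inl, Sum.elim_inr]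
    ring
  · intro t k hk
    cases k with
    | inl k =>
      obtain ⟨a, b⟩ := hinf (fun k => t (Sum.inl k)) k hk
      simp only [Sum.elim_inl]
      have hmid : W (fun k => t (Sum.inl k)) <:+:
          e :: (W (fun k => t (Sum.inl k)) ++ W' (fun k => t (Sum.inr k))) :=
        ⟨[e], W' (fun k => t (Sum.inr k)), by simp⟩
      exact ⟨a.trans hmid, b.trans hmid⟩
    | inr k =>
      obtain ⟨a, b⟩ := hinf' (fun k => t (Sum.inr k)) k hk
      simp only [Sum.elim_inr]
      have hmid : W' (fun k => t (Sum.inr k)) <:+: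
          e :: (W (fun k => t (Sum.inl k)) ++ W' (fun k => t (Sum.inr k))) :=
        ⟨e :: W (fun k => t (Sum.inl k)), [], by simp⟩
      exact ⟨a.trans hmid, b.trans hmid⟩

lemma emb_fam {T : Set (List P.Γ)} {τ τ' : Tree P.S (Lab P T)} (h : Tree.Emb τ τ') :
    ∀ (s : P.S) (α : List P.Γ) (s' r : P.S) (β : List P.Γ) (r' : P.S),
      Valid τ s α s' → Valid τ' r β r' →
      ∃ x y w', Ctx s α s' r β r' x y ∧ yield τ' = x ++ w' ++ y ∧ Fam s α s' (yield τ) w' := by
  induction h with
  | leaf b =>
    intro s α s' r β r' h1 h2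
    cases h1 with
    | leaf s =>
      cases h2 with
      | leaf s =>
        refine ⟨[], [], [], ?_, rfl, ?_⟩
        · intro w hw; simpa using hw
        · refine ⟨Empty, inferInstance, fun k => k.elim, fun k => k.elim, fun _ => [], rfl, rfl,
            ?_, ?_, ?_⟩
          · intro t; exact Run.nil _
          · intro t g; simp [yield]
          · intro t k; exact k.elim
  | node c hl hr ihl ihr =>
    intro s α s' r β r' h1 h2
    cases h1 with
    | node e α0 t s0 h1l h1r =>
      cases h2 with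
      | node _ _ _ _ h2l h2r =>
        obtain ⟨x1, y1, w1, c1, e1, f1⟩ := ihl _ _ _ _ _ _ h1l h2l
        obtain ⟨x2, y2, w2, c2, e2, f2⟩ := ihr _ _ _ _ _ _ h1r h2r
        refine ⟨[], [], e :: ((x1 ++ w1 ++ y1) ++ (x2 ++ w2 ++ y2)), ?_, ?_, ?_⟩
        · intro w hw; simpa using hw
        · simp only [yield, e1, e2, List.nil_append, List.append_nil]
        · exact Fam.node (f1.ctx c1) (f2.ctx c2)
  | left c hl ih =>
    rename_i τ0 l0 r0
    intro s α s' r β r' h1 h2
    cases h2 with
    | node e α0 t s0 h2l h2r =>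
      obtain ⟨x, y, w', c1, e1, f1⟩ := ih _ _ _ _ _ _ h1 h2l
      refine ⟨e :: x, y ++ yield r0, w', ?_, ?_, f1⟩
      · intro w hw
        have := Run.cons e (Run.join (c1 w hw) h2r.run)
        simpa [List.append_assoc] using this
      · simp only [yield, e1]
        simp [List.append_assoc]
  | right c hr ih =>
    rename_i τ0 l0 r0
    intro s α s' r β r' h1 h2
    cases h2 with
    | node e α0 t s0 h2l h2r =>
      obtain ⟨x, y, w', c1, e1, f1⟩ := ih _ _ _ _ _ _ h1 h2r
      refine ⟨e :: (yield l0 ++ x), y, w', ?_, ?_, f1⟩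
      · intro w hw
        have := Run.cons e (Run.join h2l.run (c1 w hw))
        simpa [List.append_assoc] using this
      · simp only [yield, e1]
        simp [List.append_assoc]

/-- The pumping theorem: in an infinite family of runs with the same start and end there are two
which are connected by a pumping family. -/
theorem pump (hS : Finite P.S) (hE : Finite P.E) (s : P.S) (Z : P.Γ) (s' : P.S)
    (f : ℕ → List P.E) (hf : ∀ n, P.Run s [Z] (f n) s') :
    ∃ m n, m < n ∧ Fam s [Z] s' (f m) (f n) := by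
  classical
  set T : Set (List P.Γ) := {α | (∃ e, α <:+ P.push e) ∨ α <:+ [Z]} with hT
  have hTfin : T.Finite := by
    have h1 : ∀ l : List P.Γ, {α | α <:+ l}.Finite := by
      intro l
      apply (l.tails.toFinset.finite_toSet).subset
      intro α hα
      simpa using hα
    have : T ⊆ (⋃ e, {α | α <:+ P.push e}) ∪ {α | α <:+ [Z]} := by
      rintro α (⟨e, he⟩ | h)
      · exact Or.inl (Set.mem_iUnion.mpr ⟨e, he⟩)
      · exact Or.inr h
    exact ((Set.finite_iUnion (fun e => h1 _)).union (h1 _)).subset this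
  have : Finite T := hTfin
  have hsuf : ∀ Z α, Z :: α ∈ T → α ∈ T := by
    rintro Y α (⟨e, he⟩ | h)
    · exact Or.inl ⟨e, (List.suffix_cons Y α).trans he⟩
    · exact Or.inr ((List.suffix_cons Y α).trans h)
  have hpush : ∀ e, P.push e ∈ T := fun e => Or.inl ⟨e, List.suffix_refl _⟩
  have hex : ∀ n, ∃ τ : Tree P.S (Lab P T), Valid τ s [Z] s' ∧ yield τ = f n := fun n =>
    exists_valid hsuf hpush _ (f n) rfl s [Z] s' (Or.inr (List.suffix_refl _)) (hf n)
  choose τ hτ hy using hex
  obtain ⟨m, n, hmn, hemb⟩ := Tree.exists_emb τ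
  obtain ⟨x, y, w', hc, he, hfam⟩ := emb_fam hemb _ _ _ _ _ _ (hτ m) (hτ n)
  refine ⟨m, n, hmn, ?_⟩
  rw [← hy m, ← hy n, he]
  exact hfam.ctx hc

end PDS

end Pool.Agent.Helper15_Fspda
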