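import Pool.Agent.Helper15_Fspda.Defs
import Pool.Agent.Helper15_Fspda.Words

set_option autoImplicit false

namespace Pool.Agent.Helper15_Fspda

namespace SPDA

variable {α : Type} {M : SPDA α}

lemma Steps.nil_inv {c c' : Config M.Q M.Γ α} (h : M.Steps c [] c') : c = c' := by
  cases h
  rfl

lemma Steps.cons_inv {r : M.Ψ} {μ : List M.Ψ} {c c' : Config M.Q M.Γ α}
    (h : M.Steps c (r :: μ) c') : ∃ c1, M.Step r c c1 ∧ M.Steps c1 μ c' := by
  cases h with
  | cons hs hr => exact ⟨_, hs, hr⟩

lemma Steps.append {c c' c'' : Config M.Q M.Γ α} {μ ν : List M.Ψ} (h1 : M.Steps c μ c')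
    (h2 : M.Steps c' ν c'') : M.Steps c (μ ++ ν) c'' := by
  induction h1 with
  | refl c => exact h2
  | cons hs _ ih => exact Steps.cons hs (ih h2)

lemma Steps.split {μ ν : List M.Ψ} : ∀ {c c'' : Config M.Q M.Γ α}, M.Steps c (μ ++ ν) c'' →
    ∃ c', M.Steps c μ c' ∧ M.Steps c' ν c'' := by
  induction μ with
  | nil => intro c c'' h; exact ⟨c, Steps.refl c, h⟩
  | cons r μ ih =>
    intro c c'' h
    cases h with
    | cons hs hr =>
      obtain ⟨c', h1, h2⟩ := ih hr
      exact ⟨c', Steps.cons hs h1, h2⟩

lemma Steps.first {c c' : Config M.Q M.Γ α} {μ : List M.Ψ} (h : M.Steps c μ c') {r : M.Ψ}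
    (hr : μ[0]? = some r) : (M.rule r).q = c.state := by
  cases h with
  | refl c => simp at hr
  | cons hs _ =>
    simp only [List.getElem?_cons_zero, Option.some.injEq] at hr
    obtain ⟨η, v, h1, _⟩ := hs
    rw [h1, ← hr]

lemma Steps.adj {μ : List M.Ψ} : ∀ {c c' : Config M.Q M.Γ α}, M.Steps c μ c' →
    ∀ (i : ℕ) (r s : M.Ψ), μ[i]? = some r → μ[i + 1]? = some s → (M.rule s).q = (M.rule r).p := by
  induction μ with
  | nil => intro c c' _ i r s h; simp at h
  | cons a μ ih =>
    intro c c' h i r s h1 h2
    cases h with
    | cons hs hr =>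
      cases i with
      | zero =>
        simp only [List.getElem?_cons_zero, Option.some.injEq] at h1
        simp only [List.getElem?_cons_succ] at h2
        obtain ⟨η, v, _, h3⟩ := hs
        rw [hr.first h2, h3, ← h1]
      | succ i =>
        simp only [List.getElem?_cons_succ] at h1 h2
        exact ih hr i r s h1 h2

/-- Synchronisation: if blocks are counted by the states and the relation `R` forces the beginning
of a new block, then the new blocks begin exactly at the multiples of `k`. -/
lemma sync (M : SPDA α) (N : ℕ) (bs : M.Q → ℕ) (nw : M.Ψ → Prop) (h0 : bs M.q₀ = 0)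
    (hnew : ∀ r, nw r → bs (M.rule r).p = bs (M.rule r).q + 1)
    (hold : ∀ r, ¬ nw r → bs (M.rule r).p = bs (M.rule r).q ∧ 1 ≤ bs (M.rule r).q)
    (hR : ∀ r s, M.R r s → nw s) (hle : ∀ q, bs q ≤ N + 1)
    {c c' : Config M.Q M.Γ α} (hc : c.state = M.q₀) {μ : List M.Ψ} (hst : M.Steps c μ c')
    {k : ℕ} (hk : 1 ≤ k) (hlen : μ.length = (N + 1) * k)
    (hrel : ∀ j, j < N → ∃ r s, μ[j * k]? = some r ∧ μ[(j + 1) * k]? = some s ∧ M.R r s) :
    ∀ i r, μ[i]? = some r → (nw r ↔ k ∣ i) ∧ bs (M.rule r).p = i / k + 1 := by
  classical
  set L := (N + 1) * k with hL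
  have hLpos : 0 < L := Nat.mul_pos (by omega) (by omega)
  have hget : ∀ i, i < L → ∃ r, μ[i]? = some r := by
    intro i hi
    rw [← hlen] at hi
    exact ⟨μ[i], List.getElem?_eq_getElem hi⟩
  have h0' : 0 < μ.length := by omega
  set r0 := μ[0] with hr0
  set mf : ℕ → M.Ψ := fun i => μ.getD i r0 with hmf
  have hmfget : ∀ i, i < L → μ[i]? = some (mf i) := by
    intro i hi
    rw [hmf]
    simp only
    have : i < μ.length := by omega
    rw [List.getElem?_eq_getElem this, List.getD_eq_getElem _ _ this]
  -- number of blocks begun before time `i`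
  set B : ℕ → ℕ := fun i => match i with
    | 0 => 0
    | i + 1 => bs (M.rule (mf i)).p with hB
  have hBq : ∀ i, i < L → bs (M.rule (mf i)).q = B i := by
    intro i hi
    cases i with
    | zero =>
      rw [hst.first (hmfget 0 hi), hc, h0]
    | succ i =>
      rw [hst.adj i _ _ (hmfget i (by omega)) (hmfget (i + 1) hi)]
  have hBs : ∀ i, B (i + 1) = bs (M.rule (mf i)).p := fun i => rfl
  have hmul : ∀ i, i < L → k ∣ i → nw (mf i) := by
    intro i hi hd
    obtain ⟨j, rfl⟩ := hd
    cases j with
    | zero =>
      by_contra hcon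
      have h1 := (hold _ hcon).2
      rw [hBq _ (by simpa using hLpos)] at h1
      have : B (k * 0) = 0 := rfl
      omega
    | succ j =>
      have hj : j < N := by
        by_contra hcon
        push Not at hcon
        have : (N + 1) * k ≤ k * (j + 1) := by
          rw [mul_comm k]
          exact Nat.mul_le_mul_right k (by omega)
        omega
      obtain ⟨r, s, _, hs, hrs⟩ := hrel j hj
      have : k * (j + 1) = (j + 1) * k := mul_comm _ _
      rw [← this, hmfget _ hi] at hs
      simp only [Option.some.injEq] at hs
      rw [hs]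
      exact hR _ _ hrs
  -- the difference is monotone
  set D : ℕ → ℤ := fun i => (B i : ℤ) - ((i + k - 1) / k : ℕ) with hD
  have hceil : ∀ i, (i + 1 + k - 1) / k = (i + k - 1) / k + (if k ∣ i then 1 else 0) := by
    intro i
    have e1 : i + 1 + k - 1 = i + k := by omega
    rw [e1]
    rcases Nat.eq_zero_or_pos i with hi | hi
    · subst hi
      simp only [zero_add, dvd_zero, if_true]
      rw [Nat.div_self (by omega), Nat.div_eq_of_lt (by omega)]
    · have e2 : i + k - 1 = (i - 1) + k := by omega
      rw [e2, Nat.add_div_right _ (by omega), Nat.add_div_right _ (by omega)]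
      have e3 : i = (i - 1) + 1 := by omega
      conv_lhs => rw [e3]
      rw [Nat.succ_div]
      have e4 : i - 1 + 1 = i := by omega
      rw [e4]
      by_cases hd : k ∣ i
      · simp only [hd, if_true]
      · simp only [hd, if_false, add_zero]
  have hDstep : ∀ i, i < L → D i ≤ D (i + 1) := by
    intro i hi
    simp only [hD, hceil i]
    by_cases hn : nw (mf i)
    · have h1 : B (i + 1) = B i + 1 := by rw [hBs, hnew _ hn, hBq i hi]
      rw [h1]
      split_ifs <;> push_cast <;> linarith
    · have h1 : B (i + 1) = B i := by rw [hBs, (hold _ hn).1, hBq i hi]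
      have h2 : ¬ k ∣ i := fun hd => hn (hmul i hi hd)
      rw [h1, if_neg h2]
      push_cast; linarith
  have hDmono : ∀ d i, i + d ≤ L → D i ≤ D (i + d) := by
    intro d
    induction d with
    | zero => intro i _; simp
    | succ d ih =>
      intro i hi
      exact (ih i (by omega)).trans (hDstep (i + d) (by omega))
  have hD0 : D 0 = 0 := by
    simp only [hD]
    have : B 0 = 0 := rfl
    rw [this, Nat.zero_add, Nat.div_eq_of_lt (by omega)]; simp
  have hDL : D L ≤ 0 := by
    have h1 : L = (L - 1) + 1 := by omega
    have h2 : B L ≤ N + 1 := by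
      rw [h1, hBs]; exact hle _
    have h3 : (L + k - 1) / k = N + 1 := by
      have : L + k - 1 = (k - 1) + (N + 1) * k := by omega
      rw [this, Nat.add_mul_div_right _ _ (by omega), Nat.div_eq_of_lt (by omega), zero_add]
    simp only [hD, h3]
    push_cast
    have : (B L : ℤ) ≤ N + 1 := by exact_mod_cast h2
    linarith
  have hDz : ∀ i, i ≤ L → D i = 0 := by
    intro i hi
    have h1 := hDmono i 0 (by omega)
    rw [Nat.zero_add, hD0] at h1
    have h2 := hDmono (L - i) i (by omega)
    have e : i + (L - i) = L := by omega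
    rw [e] at h2
    linarith
  have hBeq : ∀ i, i ≤ L → B i = (i + k - 1) / k := by
    intro i hi
    have := hDz i hi
    simp only [hD] at this
    have : (B i : ℤ) = (((i + k - 1) / k : ℕ) : ℤ) := by linarith
    exact_mod_cast this
  intro i r hr
  have hi : i < L := by
    rw [← hlen]; exact (List.getElem?_eq_some_iff.mp hr).1
  have hri : r = mf i := by
    rw [hmfget i hi] at hr
    simpa using hr.symm
  have b1 := hBeq i (by omega)
  have b2 := hBeq (i + 1) (by omega)
  rw [hceil i] at b2
  constructor
  · constructor
    · intro hn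
      rw [hri] at hn
      have h1 : B (i + 1) = B i + 1 := by rw [hBs, hnew _ hn, hBq i hi]
      by_contra hd
      rw [if_neg hd] at b2
      omega
    · intro hd
      rw [hri]; exact hmul i hi hd
  · rw [hri, ← hBs, hBeq (i + 1) (by omega)]
    have e1 : i + 1 + k - 1 = i + k := by omega
    rw [e1, Nat.add_div_right _ (by omega)]

end SPDA

/-- indexing a concatenation of blocks of equal length -/
lemma getElem?_flatMap_blocks {A : Type} (B : ℕ → List A) (k : ℕ) (hB : ∀ j, (B j).length = k) :
    ∀ (n j i : ℕ), j < n → i < k → ((List.range n).flatMap B)[j * k + i]? = (B j)[i]? := by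
  intro n
  induction n with
  | zero => intro j i hj; omega
  | succ n ih =>
    intro j i hj hi
    rw [List.range_succ, List.flatMap_append]
    have hlen : ((List.range n).flatMap B).length = n * k := by
      rw [List.length_flatMap]
      have : List.map (fun x => (B x).length) (List.range n) = (List.range n).map (fun _ => k) := by
        apply List.map_congr_left
        intro x _; exact hB x
      rw [this]; simp
    by_cases h : j < n
    · have h1 : j * k + i < n * k := by
        have : (j + 1) * k ≤ n * k := Nat.mul_le_mul_right k (by omega)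
        have : j * k + k = (j + 1) * k := by ring
        omega
      rw [List.getElem?_append_left (by omega)]
      exact ih j i h hi
    · have hjn : j = n := by omega
      subst hjn
      rw [List.getElem?_append_right (by omega), hlen]
      simp

lemma length_flatMap_blocks {A : Type} (B : ℕ → List A) (k : ℕ) (hB : ∀ j, (B j).length = k)
    (n : ℕ) : ((List.range n).flatMap B).length = n * k := by
  rw [List.length_flatMap]
  have : List.map (fun x => (B x).length) (List.range n) = (List.range n).map (fun _ => k) := by
    apply List.map_congr_left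
    intro x _; exact hB x
  rw [this]; simp

end Pool.Agent.Helper15_Fspda
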