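import Pool.Agent.Helper15_Fspda.Sync

set_option autoImplicit false

namespace Pool.Agent.Helper15_Fspda

/-- states of the witness automaton -/
inductive WQ (n : ℕ) : Type
  | st : WQ n
  | up : Fin (n + 2) → WQ n
  | dn : Fin (n + 2) → WQ n
  | tt : WQ n
  deriving DecidableEq, Fintype

/-- labels of the witness automaton -/
inductive WL (n : ℕ) : Type
  | start : WL n
  | push : Fin (n + 2) → WL n
  | pop1 : Fin (n + 2) → WL n
  | pop : Fin (n + 2) → WL n
  | tpop1 : WL n
  | tpop : WL n
  | next : Fin (n + 1) → WL n
  deriving DecidableEq, Fintype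

/-- letters -/
def la (n i : ℕ) : Fin (2 * n + 4) := Fin.ofNat (2 * n + 4) (2 * i)
def lb (n i : ℕ) : Fin (2 * n + 4) := Fin.ofNat (2 * n + 4) (2 * i + 1)

/-- source state of the first rule of a block -/
def src (n : ℕ) : ℕ → WQ n
  | 0 => .st
  | 1 => .tt
  | j + 2 => .dn (Fin.ofNat (n + 2) (j + 1))

/-- rules -/
def wrule (n : ℕ) : WL n → Rule (WQ n) Bool (Fin (2 * n + 4))
  | .start => ⟨false, .st, [la n 0], [false, true], .up 0⟩
  | .push j => ⟨true, .up j, [la n j], [true, true], .up j⟩
  | .pop1 j => ⟨true, .up j, [lb n j], [], .dn j⟩
  | .pop j => ⟨true, .dn j, [lb n j], [], .dn j⟩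
  | .tpop1 => ⟨true, .up 0, [lb n 0], [], .tt⟩
  | .tpop => ⟨true, .dn 0, [lb n 0], [], .tt⟩
  | .next j => ⟨false, src n (j + 1), [la n (j + 1)],
      (if (j : ℕ) = n then [] else [false]) ++ [true], .up j.succ⟩

lemma src_succ_ne_up (n j : ℕ) (i : Fin (n + 2)) : src n (j + 1) ≠ .up i := by
  cases j <;> simp [src]

lemma src_inj {n : ℕ} {i j : Fin (n + 1)} (h : src n (i + 1) = src n (j + 1)) : i = j := by
  obtain ⟨i, hi⟩ := i
  obtain ⟨j, hj⟩ := j
  cases i with
  | zero =>
    cases j with
    | zero => rfl
    | succ j => simp [src] at h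
  | succ i =>
    cases j with
    | zero => simp [src] at h
    | succ j =>
      simp only [src, WQ.dn.injEq] at h
      have := congrArg (fun x : Fin (n + 2) => (x : ℕ)) h
      simp only [Fin.ofNat, Nat.mod_eq_of_lt (show i + 1 < n + 2 by omega),
        Nat.mod_eq_of_lt (show j + 1 < n + 2 by omega)] at this
      simpa using this

lemma wrule_injective (n : ℕ) : Function.Injective (wrule n) := by
  intro r s h
  cases r <;> cases s <;> simp [wrule] at h <;> try rfl
  all_goals first
    | exact congrArg _ h.1
    | exact congrArg _ h.2.1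
    | skip
  all_goals first
    | (obtain ⟨h1, _⟩ := h; exact congrArg _ (src_inj h1))
    | exact absurd h.2.2.2.symm (Fin.succ_ne_zero _)

/-- The witness automaton. -/
abbrev wit (n : ℕ) : SPDA (Fin (2 * n + 4)) where
  Q := WQ n
  Γ := Bool
  Ψ := WL n
  finite_Q := inferInstance
  finite_Γ := inferInstance
  finite_Ψ := inferInstance
  rule := wrule n
  rule_injective := wrule_injective n
  q₀ := .st
  qt := .tt
  Z₀ := false
  F := {.dn (Fin.last (n + 1))}
  R := fun _ s => s = .start ∨ ∃ j, s = .next j

/-- labels that begin a block -/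
def isNew (n : ℕ) (s : WL n) : Prop := s = .start ∨ ∃ j, s = .next j

/-- block counter of states -/
def wbs (n : ℕ) : WQ n → ℕ
  | .st => 0
  | .up j => j + 1
  | .dn j => j + 1
  | .tt => 1

lemma wbs_src (n : ℕ) (j : Fin (n + 1)) : wbs n (src n (j + 1)) = j + 1 := by
  obtain ⟨j, hj⟩ := j
  cases j with
  | zero => rfl
  | succ j =>
    simp only [src, wbs, Fin.ofNat, Nat.mod_eq_of_lt (show j + 1 < n + 2 by omega)]

section phases

variable {n : ℕ}

lemma stack_true {base η : List Bool} {x : ℕ} (hb : base = [] ∨ base = [false])
    (h : base ++ List.replicate x true = η ++ [true]) :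
    ∃ x', x = x' + 1 ∧ η = base ++ List.replicate x' true := by
  cases x with
  | zero =>
    exfalso
    rcases hb with rfl | rfl
    · simp at h
    · cases η with
      | nil => simp at h
      | cons a η => simp at h
  | succ x =>
    refine ⟨x, rfl, ?_⟩
    rw [List.replicate_succ', ← List.append_assoc] at h
    exact ((List.append_inj' h rfl).1).symm

lemma stack_false {base η : List Bool} {x : ℕ}
    (h : base ++ List.replicate x true = η ++ [false]) (hb : base = [] ∨ base = [false]) :
    x = 0 ∧ base = [false] ∧ η = [] := by
  cases x with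
  | zero =>
    rcases hb with rfl | rfl
    · simp at h
    · cases η with
      | nil => simp
      | cons a η => simp at h
  | succ x =>
    exfalso
    rw [List.replicate_succ', ← List.append_assoc] at h
    have := (List.append_inj' h rfl).2
    simp at this

lemma tt_phase {ν : List (WL n)} {S : List Bool} {v : List (Fin (2 * n + 4))}
    {c' : Config (WQ n) Bool (Fin (2 * n + 4))} (hν : ∀ r ∈ ν, ¬ isNew n r)
    (h : (wit n).Steps ⟨S, .tt, v⟩ ν c') : ν = [] ∧ c' = ⟨S, .tt, v⟩ := by
  cases h with
  | refl => exact ⟨rfl, rfl⟩
  | cons hs hr =>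
    rename_i r μ c''
    exfalso
    obtain ⟨η, u, h1, h2⟩ := hs
    have h3 : WQ.tt = (wrule n r).q := by
      have := congrArg Config.state h1
      exact this
    have h4 := hν r (by simp)
    cases r with
    | next j => exact h4 (Or.inr ⟨j, rfl⟩)
    | start => exact h4 (Or.inl rfl)
    | push j => simp [wrule] at h3
    | pop1 j => simp [wrule] at h3
    | pop j => simp [wrule] at h3
    | tpop1 => simp [wrule] at h3
    | tpop => simp [wrule] at h3

lemma dn_phase {base : List Bool} (hb : base = [] ∨ base = [false]) {j : Fin (n + 2)} :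
    ∀ {ν : List (WL n)} {x : ℕ} {v : List (Fin (2 * n + 4))}
      {c' : Config (WQ n) Bool (Fin (2 * n + 4))}, (∀ r ∈ ν, ¬ isNew n r) →
      (wit n).Steps ⟨base ++ List.replicate x true, .dn j, v⟩ ν c' →
      ∃ x', c'.stack = base ++ List.replicate x' true ∧ x = x' + ν.length ∧
        v = List.replicate ν.length (lb n j) ++ c'.input ∧
        (c'.state = .dn j ∨ (c'.state = .tt ∧ j = 0)) := by
  intro ν
  induction ν with
  | nil =>
    intro x v c' _ h
    cases h
    exact ⟨x, rfl, rfl, rfl, Or.inl rfl⟩
  | cons r ν ih =>
    intro x v c' hν h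
    cases h with
    | cons hs hr =>
      rename_i c''
      obtain ⟨η, u, h1, h2⟩ := hs
      have hq : WQ.dn j = (wrule n r).q := congrArg Config.state h1
      have hS : base ++ List.replicate x true = η ++ [(wrule n r).Z] := congrArg Config.stack h1
      have hv : v = (wrule n r).x ++ u := congrArg Config.input h1
      have h4 := hν r (by simp)
      cases r with
      | next i => exact absurd (Or.inr ⟨i, rfl⟩) h4
      | start => exact absurd (Or.inl rfl) h4
      | push i => simp [wrule] at hq
      | pop1 i => simp [wrule] at hq
      | tpop1 => simp [wrule] at hq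
      | pop i =>
        have hij : j = i := by simpa [wrule] using hq
        subst hij
        obtain ⟨x', hx', hη⟩ := stack_true hb hS
        have hc'' : c'' = ⟨base ++ List.replicate x' true, .dn j, u⟩ := by
          rw [h2, hη]
          show Config.mk (base ++ List.replicate x' true ++ []) _ _ = _
          rw [List.append_nil]; rfl
        rw [hc''] at hr
        obtain ⟨x'', e1, e2, e3, e4⟩ := ih (fun r hr => hν r (List.mem_cons_of_mem _ hr)) hr
        refine ⟨x'', e1, ?_, ?_, e4⟩
        · simp only [List.length_cons]; omega
        · rw [hv, e3]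
          simp [wrule, List.replicate_succ]
      | tpop =>
        have hij : j = 0 := by simpa [wrule] using hq
        subst hij
        obtain ⟨x', hx', hη⟩ := stack_true hb hS
        have hc'' : c'' = ⟨base ++ List.replicate x' true, .tt, u⟩ := by
          rw [h2, hη]
          show Config.mk (base ++ List.replicate x' true ++ []) _ _ = _
          rw [List.append_nil]; rfl
        rw [hc''] at hr
        obtain ⟨e1, e2⟩ := tt_phase (fun r hr => hν r (List.mem_cons_of_mem _ hr)) hr
        subst e1
        rw [e2]
        refine ⟨x', rfl, ?_, ?_, Or.inr ⟨rfl, rfl⟩⟩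
        · simpa using hx'
        · rw [hv]
          simp [wrule]

lemma up_phase {base : List Bool} (hb : base = [] ∨ base = [false]) {j : Fin (n + 2)} :
    ∀ {ν : List (WL n)} {x : ℕ} {v : List (Fin (2 * n + 4))}
      {c' : Config (WQ n) Bool (Fin (2 * n + 4))}, (∀ r ∈ ν, ¬ isNew n r) →
      (wit n).Steps ⟨base ++ List.replicate x true, .up j, v⟩ ν c' →
      ∃ x' y z, c'.stack = base ++ List.replicate x' true ∧ x + y = x' + z ∧ ν.length = y + z ∧
        v = List.replicate y (la n j) ++ (List.replicate z (lb n j) ++ c'.input) ∧
        ((c'.state = .up j ∧ z = 0) ∨ c'.state = .dn j ∨ (c'.state = .tt ∧ j = 0)) := by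
  intro ν
  induction ν with
  | nil =>
    intro x v c' _ h
    cases h
    exact ⟨x, 0, 0, rfl, rfl, rfl, rfl, Or.inl ⟨rfl, rfl⟩⟩
  | cons r ν ih =>
    intro x v c' hν h
    cases h with
    | cons hs hr =>
      rename_i c''
      obtain ⟨η, u, h1, h2⟩ := hs
      have hq : WQ.up j = (wrule n r).q := congrArg Config.state h1
      have hS : base ++ List.replicate x true = η ++ [(wrule n r).Z] := congrArg Config.stack h1
      have hv : v = (wrule n r).x ++ u := congrArg Config.input h1
      have h4 := hν r (by simp)
      have hν' : ∀ r ∈ ν, ¬ isNew n r := fun r hr => hν r (List.mem_cons_of_mem _ hr)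
      cases r with
      | next i => exact absurd (Or.inr ⟨i, rfl⟩) h4
      | start => exact absurd (Or.inl rfl) h4
      | pop i => simp [wrule] at hq
      | tpop => simp [wrule] at hq
      | push i =>
        have hij : j = i := by simpa [wrule] using hq
        subst hij
        obtain ⟨x', hx', hη⟩ := stack_true hb hS
        have hc'' : c'' = ⟨base ++ List.replicate (x + 1) true, .up j, u⟩ := by
          rw [h2, hη, hx']
          have e : base ++ List.replicate x' true ++ [true, true]
              = base ++ List.replicate (x' + 1 + 1) true := by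
            rw [List.replicate_succ', List.replicate_succ']
            simp [List.append_assoc]
          rw [← e]; rfl
        rw [hc''] at hr
        obtain ⟨x'', y, z, e1, e2, e3, e4, e5⟩ := ih hν' hr
        refine ⟨x'', y + 1, z, e1, by omega, ?_, ?_, e5⟩
        · simp only [List.length_cons]; omega
        · rw [hv, e4]
          simp [wrule, List.replicate_succ]
      | pop1 i =>
        have hij : j = i := by simpa [wrule] using hq
        subst hij
        obtain ⟨x', hx', hη⟩ := stack_true hb hS
        have hc'' : c'' = ⟨base ++ List.replicate x' true, .dn j, u⟩ := by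
          rw [h2, hη]
          show Config.mk (base ++ List.replicate x' true ++ []) _ _ = _
          rw [List.append_nil]; rfl
        rw [hc''] at hr
        obtain ⟨x'', e1, e2, e3, e4⟩ := dn_phase hb hν' hr
        refine ⟨x'', 0, ν.length + 1, e1, by omega, ?_, ?_, Or.inr e4⟩
        · simp only [List.length_cons]; omega
        · rw [hv, e3]
          simp [wrule, List.replicate_succ]
      | tpop1 =>
        have hij : j = 0 := by simpa [wrule] using hq
        subst hij
        obtain ⟨x', hx', hη⟩ := stack_true hb hS
        have hc'' : c'' = ⟨base ++ List.replicate x' true, .tt, u⟩ := by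
          rw [h2, hη]
          show Config.mk (base ++ List.replicate x' true ++ []) _ _ = _
          rw [List.append_nil]; rfl
        rw [hc''] at hr
        obtain ⟨e1, e2⟩ := tt_phase hν' hr
        subst e1
        rw [e2]
        refine ⟨x', 0, 1, rfl, by omega, rfl, ?_, Or.inr (Or.inr ⟨rfl, rfl⟩)⟩
        rw [hv]
        simp [wrule]

end phases

/-- prefix words -/
def pre (n m j : ℕ) : List (Fin (2 * n + 4)) :=
  (List.range j).flatMap (fun i => List.replicate m (la n i) ++ List.replicate m (lb n i))

lemma pre_succ (n m j : ℕ) : pre n m (j + 1)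
    = pre n m j ++ (List.replicate m (la n j) ++ List.replicate m (lb n j)) := by
  unfold pre
  rw [List.range_succ, List.flatMap_append]
  simp

lemma word_eq_pre (n m : ℕ) : word (2 * n + 4) m = pre n m (n + 2) := by
  have h1 : word (2 * n + 4) m
      = (List.range (2 * n + 4)).flatMap (fun i => List.replicate m (Fin.ofNat (2 * n + 4) i)) := by
    unfold word
    have : List.finRange (2 * n + 4)
        = (List.range (2 * n + 4)).map (fun i => Fin.ofNat (2 * n + 4) i) := by
      apply List.ext_getElem
      · simp
      · intro i h1 h2
        simp only [List.getElem_finRange, List.getElem_map, List.getElem_range]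
        apply Fin.ext
        simp only [List.length_finRange] at h1
        simp [Fin.ofNat, Nat.mod_eq_of_lt h1]
    rw [this, List.flatMap_map]
  have h2 : ∀ j, (List.range (2 * j)).flatMap
      (fun i => List.replicate m (Fin.ofNat (2 * n + 4) i)) = pre n m j := by
    intro j
    induction j with
    | zero => simp [pre]
    | succ j ih =>
      have e : 2 * (j + 1) = 2 * j + 1 + 1 := by ring
      rw [e, List.range_succ, List.range_succ, List.flatMap_append, List.flatMap_append, ih,
        pre_succ]
      simp [la, lb, List.append_assoc]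
  have e : List.range (2 * n + 4) = List.range (2 * (n + 2)) := rfl
  rw [h1, e]
  exact h2 (n + 2)

/-- soundness of the witness -/
lemma wit_sound (n : ℕ) {w : List (Fin (2 * n + 4))} (hw : w ∈ (wit n).language (n + 1)) :
    ∃ m, 1 ≤ m ∧ w = word (2 * n + 4) m := by
  obtain ⟨f, hf, μ, hst, k, hk, hlen, _, _, hR⟩ := hw
  have hf' : f = .dn (Fin.last (n + 1)) := hf
  subst hf'
  have hsync := SPDA.sync (wit n) (n + 1) (wbs n) (isNew n) rfl
    (by
      rintro r (rfl | ⟨j, rfl⟩)
      · rfl
      · show wbs n (.up j.succ) = wbs n (src n (j + 1)) + 1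
        rw [wbs_src]
        simp [wbs])
    (by
      intro r hr
      cases r with
      | start => exact absurd (Or.inl rfl) hr
      | next j => exact absurd (Or.inr ⟨j, rfl⟩) hr
      | push j => exact ⟨rfl, by show 1 ≤ (j : ℕ) + 1; omega⟩
      | pop1 j => exact ⟨rfl, by show 1 ≤ (j : ℕ) + 1; omega⟩
      | pop j => exact ⟨rfl, by show 1 ≤ (j : ℕ) + 1; omega⟩
      | tpop1 => exact ⟨rfl, le_refl _⟩
      | tpop => exact ⟨rfl, le_refl _⟩)
    (fun r s h => h)
    (by
      intro q
      cases q with
      | st => exact Nat.zero_le _
      | up j => show (j : ℕ) + 1 ≤ n + 1 + 1; omega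
      | dn j => show (j : ℕ) + 1 ≤ n + 1 + 1; omega
      | tt => show 1 ≤ n + 1 + 1; omega)
    (c := ⟨[(wit n).Z₀], (wit n).q₀, w⟩) rfl hst hk hlen hR
  -- the claim for the blocks
  have claim : ∀ j, j ≤ n + 1 → ∃ v, (wit n).Steps
      ⟨(if j = n + 1 then [] else [false]) ++ List.replicate 1 true, .up (Fin.ofNat (n + 2) j), v⟩
      (μ.drop (j * k + 1)) ⟨[], .dn (Fin.last (n + 1)), []⟩ ∧
      w = pre n (k / 2) j ++ ([la n j] ++ v) := by
    intro j
    induction j with
    | zero =>
      intro _
      have hlpos : 0 < μ.length := by rw [hlen]; exact Nat.mul_pos (by omega) (by omega)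
      have hμ : μ = μ[0] :: μ.drop 1 := by
        have := List.drop_eq_getElem_cons hlpos
        simpa using this
      rw [hμ] at hst
      cases hst with
      | cons hs hr =>
        rename_i c''
        obtain ⟨η, u, h1, h2⟩ := hs
        obtain ⟨r, hrdef⟩ : ∃ r, r = μ[0] := ⟨_, rfl⟩
        rw [← hrdef] at h1 h2
        have hq : WQ.st = (wrule n r).q := congrArg Config.state h1
        have hS : [false] = η ++ [(wrule n r).Z] := congrArg Config.stack h1
        have hv : w = (wrule n r).x ++ u := congrArg Config.input h1
        cases r with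
        | push j => simp [wrule] at hq
        | pop1 j => simp [wrule] at hq
        | pop j => simp [wrule] at hq
        | tpop1 => simp [wrule] at hq
        | tpop => simp [wrule] at hq
        | next j =>
          exfalso
          obtain ⟨j, hj⟩ := j
          cases j <;> simp [wrule, src] at hq
        | start =>
          have hη : η = [] := by
            cases η with
            | nil => rfl
            | cons a η => simp at hS
          refine ⟨u, ?_, ?_⟩
          · have hc'' : c'' = ⟨(if 0 = n + 1 then [] else [false]) ++ List.replicate 1 true,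
                .up (Fin.ofNat (n + 2) 0), u⟩ := by
              rw [h2, hη, if_neg (by omega)]; rfl
            rw [hc''] at hr
            simpa using hr
          · rw [hv]; simp [pre, wrule]
    | succ j ih =>
      intro hj
      obtain ⟨v, hsv, hwv⟩ := ih (by omega)
      rw [if_neg (by omega)] at hsv
      have hjk : (j + 1) * k < μ.length := by
        rw [hlen]; exact Nat.mul_lt_mul_of_pos_right (by omega) (by omega)
      have hjk' : j * k + k = (j + 1) * k := by ring
      -- split
      have hsplit : μ.drop (j * k + 1) = (μ.drop (j * k + 1)).take (k - 1) ++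
          (μ[(j + 1) * k] :: μ.drop ((j + 1) * k + 1)) := by
        have e1 : (μ.drop (j * k + 1)).drop (k - 1) = μ.drop ((j + 1) * k) := by
          rw [List.drop_drop]; congr 1; omega
        rw [← List.drop_eq_getElem_cons hjk, ← e1, List.take_append_drop]
      rw [hsplit] at hsv
      obtain ⟨c1, hs1, hs2⟩ := SPDA.Steps.split hsv
      set ν := (μ.drop (j * k + 1)).take (k - 1) with hν
      have hνlen : ν.length = k - 1 := by
        rw [hν, List.length_take, List.length_drop]; omega
      have hνnew : ∀ r ∈ ν, ¬ isNew n r := by
        intro r hr hnew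
        obtain ⟨i, hi, hir⟩ := List.getElem_of_mem hr
        have hi' : i < k - 1 := by omega
        have h3 : μ[j * k + 1 + i]? = some r := by
          rw [← hir]
          have h4 : ν[i]? = some ν[i] := List.getElem?_eq_getElem hi
          rw [← h4, hν, List.getElem?_take_of_lt hi', List.getElem?_drop]
        have h5 := (hsync _ r h3).1.mp hnew
        have h6 : j * k + 1 + i = (1 + i) + j * k := by ring
        rw [h6, Nat.dvd_add_left (Dvd.intro_left j rfl)] at h5
        have := Nat.le_of_dvd (by omega) h5
        omega
      obtain ⟨x', y, z, e1, e2, e3, e4, e5⟩ := up_phase (Or.inr rfl) hνnew hs1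
      cases hs2 with
      | cons hs hr =>
        rename_i c''
        obtain ⟨η, u, h1, h2⟩ := hs
        have hrnew : isNew n μ[(j + 1) * k] := by
          have := hsync ((j + 1) * k) _ (List.getElem?_eq_getElem hjk)
          exact this.1.mpr (Dvd.intro_left (j + 1) rfl)
        obtain ⟨r, hrdef⟩ : ∃ r, r = μ[(j + 1) * k] := ⟨_, rfl⟩
        rw [← hrdef] at h1 h2 hrnew
        have hq : c1.state = (wrule n r).q := congrArg Config.state h1
        have hS : c1.stack = η ++ [(wrule n r).Z] := congrArg Config.stack h1
        have hv : c1.input = (wrule n r).x ++ u := congrArg Config.input h1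
        rcases hrnew with rfl | ⟨i, rfl⟩
        · exfalso
          rw [hq] at e5
          simp [wrule] at e5
        · -- the first rule of the next block
          rw [e1] at hS
          obtain ⟨hx', _, hη⟩ := stack_false hS (Or.inr rfl)
          have hij : (i : ℕ) = j := by
            have e6 : wbs n c1.state = i + 1 := by rw [hq]; exact wbs_src n i
            have hjv : ((Fin.ofNat (n + 2) j : Fin (n + 2)) : ℕ) = j := by
              simp [Fin.ofNat, Nat.mod_eq_of_lt (show j < n + 2 by omega)]
            rcases e5 with ⟨h, _⟩ | h | ⟨h, h0⟩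
            · rw [h] at e6; simp only [wbs, hjv] at e6; omega
            · rw [h] at e6; simp only [wbs, hjv] at e6; omega
            · rw [h] at e6
              have : j = 0 := by rw [← hjv, h0]; rfl
              simp only [wbs] at e6; omega
          have hjv : ((Fin.ofNat (n + 2) j : Fin (n + 2)) : ℕ) = j := by
            simp [Fin.ofNat, Nat.mod_eq_of_lt (show j < n + 2 by omega)]
          have hz : z = y + 1 := by omega
          have hky : k / 2 = y + 1 := by omega
          refine ⟨u, ?_, ?_⟩
          · have hc'' : c'' = ⟨(if j + 1 = n + 1 then [] else [false]) ++ List.replicate 1 true,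
                .up (Fin.ofNat (n + 2) (j + 1)), u⟩ := by
              rw [h2, hη]
              have e7 : (Fin.ofNat (n + 2) (j + 1) : Fin (n + 2)) = i.succ := by
                apply Fin.ext
                simp [Fin.ofNat, Nat.mod_eq_of_lt (show j + 1 < n + 2 by omega), hij]
              rw [e7]
              have e8 : (if j + 1 = n + 1 then ([] : List Bool) else [false])
                  = (if (i : ℕ) = n then [] else [false]) := by
                rw [hij]
                by_cases h : j = n
                · rw [if_pos h, if_pos (by omega)]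
                · rw [if_neg h, if_neg (by omega)]
              rw [e8]
              rfl
            rw [hc''] at hr
            exact hr
          · rw [hwv, e4, hv, hky, pre_succ, hz, hjv]
            simp [wrule, List.replicate_succ, List.append_assoc, hij]
  obtain ⟨v, hsv, hwv⟩ := claim (n + 1) (le_refl _)
  rw [if_pos rfl] at hsv
  have hlast : (Fin.ofNat (n + 2) (n + 1) : Fin (n + 2)) = Fin.last (n + 1) := by
    apply Fin.ext
    simp [Fin.ofNat]
  rw [hlast] at hsv
  have hνnew : ∀ r ∈ μ.drop ((n + 1) * k + 1), ¬ isNew n r := by
    intro r hr hnew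
    obtain ⟨i, hi, hir⟩ := List.getElem_of_mem hr
    have hi' : i < k - 1 := by
      rw [List.length_drop, hlen] at hi
      have : (n + 1 + 1) * k = (n + 1) * k + k := by ring
      omega
    have h3 : μ[(n + 1) * k + 1 + i]? = some r := by
      rw [← hir, ← List.getElem?_drop]
      exact List.getElem?_eq_getElem hi
    have h5 := (hsync _ r h3).1.mp hnew
    have h6 : (n + 1) * k + 1 + i = (1 + i) + (n + 1) * k := by ring
    rw [h6, Nat.dvd_add_left (Dvd.intro_left (n + 1) rfl)] at h5
    have := Nat.le_of_dvd (by omega) h5
    omega
  obtain ⟨x', y, z, e1, e2, e3, e4, e5⟩ := up_phase (Or.inl rfl) hνnew hsv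
  have hx' : x' = 0 := by
    have := congrArg List.length e1
    simpa using this.symm
  have hz : z = y + 1 := by omega
  have hl : (μ.drop ((n + 1) * k + 1)).length = k - 1 := by
    rw [List.length_drop, hlen]
    have : (n + 1 + 1) * k = (n + 1) * k + k := by ring
    omega
  have hky : k / 2 = y + 1 := by omega
  refine ⟨y + 1, by omega, ?_⟩
  rw [word_eq_pre, hwv, e4, hky, hz]
  have h9 : pre n (y + 1) (n + 2) = pre n (y + 1) (n + 1) ++
      (List.replicate (y + 1) (la n (n + 1)) ++ List.replicate (y + 1) (lb n (n + 1))) :=
    pre_succ n (y + 1) (n + 1)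
  rw [h9]
  simp [List.replicate_succ]

end Pool.Agent.Helper15_Fspda
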