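import Pool.Agent.Helper15_Fspda.Witness

set_option autoImplicit false

namespace Pool.Agent.Helper15_Fspda

section
variable {n : ℕ}

lemma push_run (base : List Bool) (j : Fin (n + 2)) (v : List (Fin (2 * n + 4))) :
    ∀ (y x : ℕ), (wit n).Steps
      ⟨base ++ List.replicate (x + 1) true, .up j, List.replicate y (la n j) ++ v⟩
      (List.replicate y (.push j))
      ⟨base ++ List.replicate (x + y + 1) true, .up j, v⟩ := by
  intro y
  induction y with
  | zero => intro x; exact SPDA.Steps.refl _
  | succ y ih =>
    intro x
    have h := ih (x + 1)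
    have e : x + 1 + y + 1 = x + (y + 1) + 1 := by ring
    rw [e] at h
    refine SPDA.Steps.cons (M := wit n) (r := WL.push j) ?_ h
    refine ⟨base ++ List.replicate x true, List.replicate y (la n j) ++ v, ?_, ?_⟩
    · rw [List.append_assoc]
      show _ = Config.mk (base ++ (List.replicate x true ++ [true])) _
        (la n j :: (List.replicate y (la n j) ++ v))
      rw [← List.replicate_succ', ← List.cons_append, ← List.replicate_succ]
      rfl
    · show _ = Config.mk (base ++ List.replicate x true ++ [true, true]) _ _
      have e : base ++ List.replicate x true ++ [true, true]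
          = base ++ List.replicate (x + 1 + 1) true := by
        rw [List.replicate_succ', List.replicate_succ']
        simp [List.append_assoc]
      rw [e]
      rfl

lemma pop_run (base : List Bool) (j : Fin (n + 2)) (v : List (Fin (2 * n + 4))) :
    ∀ (y x : ℕ), (wit n).Steps
      ⟨base ++ List.replicate (x + y) true, .dn j, List.replicate y (lb n j) ++ v⟩
      (List.replicate y (.pop j))
      ⟨base ++ List.replicate x true, .dn j, v⟩ := by
  intro y
  induction y with
  | zero => intro x; exact SPDA.Steps.refl _
  | succ y ih =>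
    intro x
    refine SPDA.Steps.cons (M := wit n) (r := WL.pop j) ?_ (ih x)
    refine ⟨base ++ List.replicate (x + y) true, List.replicate y (lb n j) ++ v, ?_, ?_⟩
    · rw [List.append_assoc]
      show _ = Config.mk (base ++ (List.replicate (x + y) true ++ [true])) _
        (lb n j :: (List.replicate y (lb n j) ++ v))
      rw [← List.replicate_succ', ← List.cons_append, ← List.replicate_succ]
      rfl
    · show _ = Config.mk (base ++ List.replicate (x + y) true ++ []) _ _
      rw [List.append_nil]
      rfl

/-- pops of the block 0 -/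
def tailZero (n m : ℕ) : List (WL n) :=
  match m with
  | 0 => []
  | 1 => [.tpop1]
  | m + 2 => .pop1 0 :: (List.replicate m (.pop 0) ++ [.tpop])

/-- labels of block `j` -/
def blkLab (n m : ℕ) : ℕ → List (WL n)
  | 0 => .start :: (List.replicate (m - 1) (.push 0) ++ tailZero n m)
  | j + 1 => .next (Fin.ofNat (n + 1) j) :: (List.replicate (m - 1) (.push (Fin.ofNat (n + 2) (j + 1)))
      ++ (.pop1 (Fin.ofNat (n + 2) (j + 1)) ::
        List.replicate (m - 1) (.pop (Fin.ofNat (n + 2) (j + 1)))))

lemma length_tailZero (m : ℕ) : (tailZero n m).length = m := by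
  match m with
  | 0 => rfl
  | 1 => rfl
  | m + 2 => simp [tailZero]

lemma length_blkLab (m : ℕ) (hm : 1 ≤ m) (j : ℕ) : (blkLab n m j).length = 2 * m := by
  cases j with
  | zero => simp only [blkLab, List.length_cons, List.length_append, List.length_replicate,
      length_tailZero]; omega
  | succ j => simp only [blkLab, List.length_cons, List.length_append, List.length_replicate]; omega

lemma tailZero_run (m : ℕ) (hm : 1 ≤ m) (v : List (Fin (2 * n + 4))) :
    (wit n).Steps ⟨[false] ++ List.replicate m true, .up 0, List.replicate m (lb n 0) ++ v⟩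
      (tailZero n m) ⟨[false], .tt, v⟩ := by
  match m, hm with
  | 1, _ =>
    refine SPDA.Steps.cons (M := wit n) (r := WL.tpop1) ?_ (SPDA.Steps.refl _)
    exact ⟨[false], v, rfl, rfl⟩
  | m + 2, _ =>
    have h1 : (wit n).Step (.pop1 0)
        ⟨[false] ++ List.replicate (m + 2) true, .up 0, List.replicate (m + 2) (lb n 0) ++ v⟩
        ⟨[false] ++ List.replicate (1 + m) true, .dn 0,
          List.replicate m (lb n 0) ++ (lb n 0 :: v)⟩ := by
      refine ⟨[false] ++ List.replicate (m + 1) true, List.replicate (m + 1) (lb n 0) ++ v, ?_, ?_⟩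
      · rw [List.append_assoc]
        show _ = Config.mk ([false] ++ (List.replicate (m + 1) true ++ [true])) _
          (lb n 0 :: (List.replicate (m + 1) (lb n 0) ++ v))
        rw [← List.replicate_succ', ← List.cons_append, ← List.replicate_succ]
        rfl
      · show _ = Config.mk ([false] ++ List.replicate (m + 1) true ++ []) _ _
        rw [List.append_nil, add_comm 1 m, List.replicate_succ' (n := m) (a := lb n 0),
          List.append_assoc]
        rfl
    refine SPDA.Steps.cons h1 (SPDA.Steps.append (pop_run [false] 0 (lb n 0 :: v) m 1) ?_)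
    refine SPDA.Steps.cons (M := wit n) (r := WL.tpop) ?_ (SPDA.Steps.refl _)
    exact ⟨[false], v, rfl, rfl⟩

/-- the pushdown before block `j` -/
def stk (n j : ℕ) : List Bool := if j = n + 2 then [] else [false]

lemma blk_run (m : ℕ) (hm : 1 ≤ m) (j : ℕ) (hj : j < n + 2) (v : List (Fin (2 * n + 4))) :
    (wit n).Steps ⟨stk n j, src n j, (List.replicate m (la n j) ++ List.replicate m (lb n j)) ++ v⟩
      (blkLab n m j) ⟨stk n (j + 1), src n (j + 1), v⟩ := by
  obtain ⟨m, rfl⟩ : ∃ m', m = m' + 1 := ⟨m - 1, by omega⟩
  have hstkj : stk n j = [false] := by unfold stk; rw [if_neg (by omega)]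
  rw [hstkj]
  cases j with
  | zero =>
    have h1 : stk n (0 + 1) = [false] := by unfold stk; rw [if_neg (by omega)]
    rw [h1]
    refine SPDA.Steps.cons (M := wit n) (r := WL.start) (c' := ⟨[false] ++ List.replicate (0 + 1) true, .up 0,
      List.replicate m (la n 0) ++ (List.replicate (m + 1) (lb n 0) ++ v)⟩) ?_ ?_
    · refine ⟨[], List.replicate m (la n 0) ++ (List.replicate (m + 1) (lb n 0) ++ v), ?_, rfl⟩
      rw [List.append_assoc, List.replicate_succ (n := m) (a := la n 0)]
      rfl
    · have h2 := push_run (n := n) [false] 0 (List.replicate (m + 1) (lb n 0) ++ v) m 0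
      simp only [Nat.zero_add] at h2
      exact SPDA.Steps.append h2 (tailZero_run (m + 1) (by omega) v)
  | succ j =>
    set J : Fin (n + 2) := Fin.ofNat (n + 2) (j + 1) with hJ
    have hJv : (J : ℕ) = j + 1 := by
      simp [hJ, Fin.ofNat, Nat.mod_eq_of_lt (show j + 1 < n + 2 by omega)]
    set I : Fin (n + 1) := Fin.ofNat (n + 1) j with hI
    have hIv : (I : ℕ) = j := by
      simp [hI, Fin.ofNat, Nat.mod_eq_of_lt (show j < n + 1 by omega)]
    have hIJ : I.succ = J := by
      apply Fin.ext; rw [hJv, Fin.val_succ, hIv]
    obtain ⟨base, hbase⟩ : ∃ base, base = stk n (j + 1 + 1) := ⟨_, rfl⟩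
    rw [← hbase]
    have hb2 : base = (if (I : ℕ) = n then [] else [false]) := by
      rw [hbase, hIv]
      unfold stk
      by_cases h : j = n
      · rw [if_pos h, if_pos (by omega)]
      · rw [if_neg h, if_neg (by omega)]
    refine SPDA.Steps.cons (M := wit n) (r := WL.next I) (c' := ⟨base ++ List.replicate (0 + 1) true, .up J,
      List.replicate m (la n (j + 1)) ++ (List.replicate (m + 1) (lb n (j + 1)) ++ v)⟩) ?_ ?_
    · refine ⟨[], List.replicate m (la n (j + 1)) ++ (List.replicate (m + 1) (lb n (j + 1)) ++ v),
        ?_, ?_⟩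
      · rw [List.append_assoc, List.replicate_succ (n := m) (a := la n (j + 1))]
        show _ = Config.mk [false] (src n ((I : ℕ) + 1)) (la n ((I : ℕ) + 1) :: _)
        rw [hIv]
        rfl
      · show _ = Config.mk ((if (I : ℕ) = n then [] else [false]) ++ [true]) (WQ.up I.succ) _
        rw [← hb2, hIJ]
        rfl
    · have h2 := push_run (n := n) base J (List.replicate (m + 1) (lb n (j + 1)) ++ v) m 0
      simp only [Nat.zero_add, hJv] at h2
      refine SPDA.Steps.append h2 ?_
      have h3 := pop_run (n := n) base J v m 0
      simp only [Nat.zero_add, hJv] at h3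
      have h4 : (wit n).Step (.pop1 J)
          ⟨base ++ List.replicate (m + 1) true, .up J, List.replicate (m + 1) (lb n (j + 1)) ++ v⟩
          ⟨base ++ List.replicate m true, .dn J, List.replicate m (lb n (j + 1)) ++ v⟩ := by
        refine ⟨base ++ List.replicate m true, List.replicate m (lb n (j + 1)) ++ v, ?_, ?_⟩
        · rw [List.append_assoc]
          show _ = Config.mk (base ++ (List.replicate m true ++ [true])) _
            (lb n (J : ℕ) :: (List.replicate m (lb n (j + 1)) ++ v))
          rw [hJv, ← List.replicate_succ', ← List.cons_append, ← List.replicate_succ]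
          rfl
        · show _ = Config.mk (base ++ List.replicate m true ++ []) _ _
          rw [List.append_nil]
          rfl
      refine SPDA.Steps.cons h4 ?_
      have e : (⟨base, src n (j + 1 + 1), v⟩ : Config (WQ n) Bool (Fin (2 * n + 4)))
          = ⟨base ++ List.replicate 0 true, .dn J, v⟩ := by
        simp [src, hJ]
      rw [e]
      exact h3

lemma blocks_run (m : ℕ) (hm : 1 ≤ m) : ∀ (j : ℕ), j ≤ n + 2 → ∀ (v : List (Fin (2 * n + 4))),
    (wit n).Steps ⟨[false], .st, pre n m j ++ v⟩ ((List.range j).flatMap (blkLab n m))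
      ⟨stk n j, src n j, v⟩ := by
  intro j
  induction j with
  | zero =>
    intro _ v
    have : stk n 0 = [false] := by unfold stk; rw [if_neg (by omega)]
    rw [this]
    exact SPDA.Steps.refl _
  | succ j ih =>
    intro hj v
    rw [List.range_succ, List.flatMap_append, pre_succ, List.append_assoc]
    refine SPDA.Steps.append (ih (by omega) _) ?_
    have : List.flatMap (blkLab n m) [j] = blkLab n m j := by simp
    rw [this]
    exact blk_run m hm j (by omega) v

lemma wit_complete (m : ℕ) (hm : 1 ≤ m) : word (2 * n + 4) m ∈ (wit n).language (n + 1) := by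
  refine ⟨.dn (Fin.last (n + 1)), rfl, (List.range (n + 2)).flatMap (blkLab n m), ?_, ?_⟩
  · rw [word_eq_pre]
    have h := blocks_run (n := n) m hm (n + 2) (le_refl _) []
    rw [List.append_nil] at h
    have h1 : stk n (n + 2) = [] := by unfold stk; rw [if_pos rfl]
    have h2 : src n (n + 2) = .dn (Fin.last (n + 1)) := by
      simp only [src]
      congr 1
      apply Fin.ext
      simp [Fin.ofNat]
    rw [h1, h2] at h
    exact h
  · have hlen := length_blkLab (n := n) m hm
    have hidx : ∀ j i, j < n + 2 → i < 2 * m →
        ((List.range (n + 2)).flatMap (blkLab n m))[j * (2 * m) + i]? = (blkLab n m j)[i]? :=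
      fun j i hj hi => getElem?_flatMap_blocks (blkLab n m) (2 * m) hlen (n + 2) j i hj hi
    obtain ⟨m, rfl⟩ : ∃ m', m = m' + 1 := ⟨m - 1, by omega⟩
    refine ⟨2 * (m + 1), by omega, ?_, ?_, ?_, ?_⟩
    · rw [length_flatMap_blocks _ _ hlen]
    · have h := hidx 0 (2 * (m + 1) - 1) (by omega) (by omega)
      rw [Nat.zero_mul, Nat.zero_add] at h
      rw [h]
      cases m with
      | zero => exact ⟨.tpop1, rfl, rfl⟩
      | succ m =>
        refine ⟨.tpop, ?_, rfl⟩
        simp only [blkLab, tailZero]
        have e : 2 * (m + 1 + 1) - 1 = (m + 1) + (m + 1) + 1 := by omega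
        rw [e, List.getElem?_cons_succ, List.getElem?_append_right (by simp)]
        have e2 : m + 1 + (m + 1) - (List.replicate (m + 1 + 1 - 1) (WL.push (0 : Fin (n + 2)))).length
            = m + 1 := by
          simp
        rw [e2, List.getElem?_cons_succ, List.getElem?_append_right (by simp)]
        simp
    · intro i hi r hr
      have h := hidx 0 i (by omega) (by omega)
      rw [Nat.zero_mul, Nat.zero_add] at h
      rw [h] at hr
      cases m with
      | zero =>
        have : i = 0 := by omega
        subst this
        simp only [blkLab, List.getElem?_cons_zero, Option.some.injEq] at hr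
        rw [← hr]
        show WQ.up 0 ≠ WQ.tt
        simp
      | succ m =>
        simp only [blkLab, tailZero] at hr
        have hmem : r ∈ WL.start :: (List.replicate (m + 1 + 1 - 1) (WL.push (0 : Fin (n + 2)))
            ++ (WL.pop1 0 :: List.replicate m (WL.pop 0))) := by
          have hsplit : WL.start :: (List.replicate (m + 1 + 1 - 1) (WL.push (0 : Fin (n + 2))) ++
              WL.pop1 0 :: (List.replicate m (WL.pop 0) ++ [WL.tpop]))
              = (WL.start :: (List.replicate (m + 1 + 1 - 1) (WL.push (0 : Fin (n + 2)))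
            ++ (WL.pop1 0 :: List.replicate m (WL.pop 0)))) ++ [WL.tpop] := by simp
          rw [hsplit, List.getElem?_append_left (by simp; omega)] at hr
          exact List.mem_of_getElem? hr
        simp only [List.mem_cons, List.mem_append, List.mem_replicate] at hmem
        rcases hmem with rfl | ⟨_, rfl⟩ | rfl | ⟨_, rfl⟩
        · show WQ.up 0 ≠ WQ.tt
          simp
        · show WQ.up 0 ≠ WQ.tt
          simp
        · show WQ.dn 0 ≠ WQ.tt
          simp
        · show WQ.dn 0 ≠ WQ.tt
          simp
    · intro j hj
      have h1 : ((List.range (n + 2)).flatMap (blkLab n (m + 1)))[j * (2 * (m + 1))]?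
          = (blkLab n (m + 1) j)[0]? := hidx j 0 (by omega) (by omega)
      have h2 : ((List.range (n + 2)).flatMap (blkLab n (m + 1)))[(j + 1) * (2 * (m + 1))]?
          = (blkLab n (m + 1) (j + 1))[0]? := hidx (j + 1) 0 (by omega) (by omega)
      have h3 : ∃ r, (blkLab n (m + 1) j)[0]? = some r := by
        cases j <;> exact ⟨_, rfl⟩
      obtain ⟨r, hr⟩ := h3
      refine ⟨r, .next (Fin.ofNat (n + 1) j), by rw [h1, hr], by rw [h2]; rfl, ?_⟩
      exact Or.inr ⟨_, rfl⟩

/-- The language of the witness. -/
theorem wit_language (n : ℕ) : (wit n).language (n + 1) = {w | ∃ m, 1 ≤ m ∧ w = word (2 * n + 4) m} := by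
  ext w
  constructor
  · exact wit_sound n
  · rintro ⟨m, hm, rfl⟩
    exact wit_complete m hm

end

end Pool.Agent.Helper15_Fspda
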